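import Pool.Agent.W966.Vf.Stms

/-!
# Verification of matrix products: statements of further independent parts
-/

set_option autoImplicit false

namespace Pool.Agent.W966.Vf

open MvPolynomial Module

/-- **VF-DER**: partial derivatives with respect to independent elements. -/
def S_DER : Prop :=
  ∀ (k κ F : Type) [Field k] [CharZero k] [DecidableEq κ] [Field F] [Algebra k F] (z : κ → F),
    AlgebraicIndependent k z → ∀ i, ∃ D : Derivation k F F, ∀ j, D (z j) = if j = i then 1 else 0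

/-- **VF-BLK** -/
def S_BLK : Prop :=
  ∀ (Ω : Type) [Field Ω] [Infinite Ω] (a m : ℕ) (T : Submodule Ω (Matrix (Fin a) (Fin a) Ω)),
    m ≤ a → finrank Ω T < (a - m + 1) * (a - m + 1) →
    ∃ (P : Matrix (Fin a) (Fin m) Ω) (R : Matrix (Fin m) (Fin a) Ω)
      (Λ : Matrix (Fin a) (Fin a) Ω →ₗ[Ω] Matrix (Fin m) (Fin m) Ω),
      (∀ y, Λ (P * y * R) = y) ∧ ∀ x ∈ T, Λ x = 0

/-- **VF-LIM** -/
def S_LIM : Prop :=
  ∀ (Ω ν τ : Type) [Field Ω] [Fintype ν] [Fintype τ] (c : τ → ν → PowerSeries Ω),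
    ∃ T : Submodule Ω (ν → Ω), finrank Ω T ≤ Fintype.card τ ∧
      ∀ f : ν → Ω, (∀ x ∈ T, ∑ v, f v * x v = 0) →
        ∃ l : ν → PowerSeries Ω, (∀ v, PowerSeries.constantCoeff (l v) = f v) ∧
          ∀ t, ∑ v, l v * c t v = 0

/-- An affine form in the variables `N` with coefficients in `K`. -/
abbrev AF (K N : Type) : Type := K × (N → K)

/-- Its value at the point `w` of a `K`-algebra. -/
noncomputable def AF.val {K N S : Type} [CommRing K] [CommRing S] [Algebra K S] [Fintype N]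
    (f : AF K N) (w : N → S) : S :=
  algebraMap K S f.1 + ∑ s, algebraMap K S (f.2 s) * w s

open Classical in
/-- The point `(x, a, w₀ + g)`. -/
noncomputable def pt {F Ω ι κ σ : Type} [Field F] [Field Ω] [Algebra F Ω] (x : ι → F) (a : κ → F)
    (T : Set σ) (w₀ : σ → Ω) (g : ↥(Tᶜ) → PowerSeries Ω) : ι ⊕ κ ⊕ σ → PowerSeries Ω :=
  Sum.elim (fun i => PowerSeries.C (algebraMap F Ω (x i)))
    (Sum.elim (fun t => PowerSeries.C (algebraMap F Ω (a t)))
      (fun s => PowerSeries.C (w₀ s) + if h : s ∈ Tᶜ then g ⟨s, h⟩ else 0))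

/-- **VF-IDENT** -/
def S_IDENT : Prop :=
  ∀ (K F Ω ι κ σ J : Type) [Field K] [CharZero K] [Field F] [Algebra K F] [Field Ω] [Algebra F Ω]
    [Algebra K Ω] [IsScalarTower K F Ω] [Fintype ι] [Fintype κ] [Fintype σ] [Fintype J]
    (x : ι → F) (a : κ → F) (T : Set σ) (w₀ : σ → Ω) (g : ↥(Tᶜ) → PowerSeries Ω)
    (γ : ↥(Tᶜ) → Ω) (e : ℕ) (α β δ : J → AF K (ι ⊕ κ ⊕ σ)) (c : ↥(Tᶜ) → J → K),
    AlgebraicIndependent K x →
    AlgebraicIndependent F (Sum.elim (fun s : T => w₀ s) γ) →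
    (∀ v, PowerSeries.constantCoeff (g v) = 0) →
    (∀ b, ∑ j, algebraMap K (PowerSeries Ω) (c b j) *
      ((α j).val (pt x a T w₀ g) * (β j).val (pt x a T w₀ g) - (δ j).val (pt x a T w₀ g)) =
        PowerSeries.C (γ b) * PowerSeries.X ^ e) →
    ∃ (p q : J → ι → PowerSeries Ω) (H : κ → ι → ι → PowerSeries Ω)
      (lam : (ι ⊕ κ ⊕ σ) → J → PowerSeries Ω) (mu : (ι ⊕ κ ⊕ σ) → κ → PowerSeries Ω)
      (E : (ι ⊕ κ ⊕ σ) → ι → ι → PowerSeries Ω),
      (∀ j, α j = 0 → ∀ i, p j i = 0) ∧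
      (∀ s i i', PowerSeries.X ^ e * E s i i' =
        ∑ j, lam s j * (p j i * q j i' + p j i' * q j i) + ∑ t, mu s t * H t i i') ∧
      (∀ (o : AF K (ι ⊕ κ ⊕ σ)) (Φ : MvPolynomial ι K),
        PowerSeries.constantCoeff (o.val (pt x a T w₀ g)) = algebraMap F Ω (aeval x Φ) →
        ∀ i i', PowerSeries.constantCoeff (∑ s, algebraMap K (PowerSeries Ω) (o.2 s) * E s i i') =
          algebraMap F Ω (aeval x (pderiv i (pderiv i' Φ))))

end Pool.Agent.W966.Vf
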