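import Mathlib
import Pool.Agent.H515R2.MMR.Rank

/-!
# Verification of matrix products: statements of the independent parts

Statements only (definitions of propositions); the proofs are in other files.
-/

set_option autoImplicit false

namespace Pool.Agent.W966.Vf

open MvPolynomial

/-- The ideal of the origin. -/
noncomputable def orig (ρ S : Type) [CommRing S] : Ideal (MvPolynomial ρ S) :=
  RingHom.ker (MvPolynomial.eval (fun _ : ρ => (0 : S)))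

/-- The origin is an isolated common zero of the polynomials `E j` (stated with prime ideals). -/
def IsolatedAt {ρ S J : Type} [CommRing S] (E : J → MvPolynomial ρ S) : Prop :=
  (∀ j, E j ∈ orig ρ S) ∧
    ∀ 𝔭 : Ideal (MvPolynomial ρ S), 𝔭.IsPrime → 𝔭 ≤ orig ρ S → (∀ j, E j ∈ 𝔭) → 𝔭 = orig ρ S

/-- The maximal ideal `(X, h)` of `Ω⟦X⟧[h]`. -/
noncomputable def orig' (ρ Ω : Type) [Field Ω] : Ideal (MvPolynomial ρ (PowerSeries Ω)) :=
  RingHom.ker ((PowerSeries.constantCoeff (R := Ω)).comp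
    (MvPolynomial.eval (fun _ : ρ => (0 : PowerSeries Ω))))

/-- **VF-HT1** -/
def S_HT1 : Prop :=
  ∀ (ρ S : Type) [CommRing S] [IsDomain S] [Fintype ρ],
    (Fintype.card ρ : ℕ∞) ≤ (orig ρ S).height

/-- **VF-HT2** -/
def S_HT2 : Prop :=
  ∀ (ρ Ω : Type) [Field Ω] [Fintype ρ],
    ((Fintype.card ρ + 1 : ℕ) : ℕ∞) ≤ (orig' ρ Ω).height

/-- **VF-AV**: a general system of `card ρ` linear combinations still isolates the origin. -/
def S_AV : Prop :=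
  ∀ (k Ω ρ J : Type) [Field k] [Infinite k] [Field Ω] [Algebra k Ω] [Fintype ρ] [Fintype J]
    (E : J → MvPolynomial ρ Ω), IsolatedAt E →
    ∃ c : ρ → J → k, IsolatedAt fun a : ρ => ∑ j, C (algebraMap k Ω (c a j)) * E j

/-- **VF-MIN** -/
def S_MIN : Prop :=
  ∀ (Ω₁ Ω ρ : Type) [Field Ω₁] [Field Ω] [Algebra Ω₁ Ω] [Fintype ρ]
    (F : ρ → MvPolynomial ρ Ω₁) (γ : ρ → Ω), IsolatedAt F →
    ∃ 𝔮 : Ideal (MvPolynomial ρ (PowerSeries Ω)), 𝔮.IsPrime ∧ 𝔮 ≤ orig' ρ Ω ∧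
      (∀ a, MvPolynomial.map (algebraMap Ω₁ (PowerSeries Ω)) (F a) -
        C (PowerSeries.C (γ a) * PowerSeries.X) ∈ 𝔮) ∧
      C (PowerSeries.X : PowerSeries Ω) ∉ 𝔮 ∧
      ∀ 𝔭 : Ideal (MvPolynomial ρ (PowerSeries Ω)), 𝔭.IsPrime → 𝔮 ≤ 𝔭 → 𝔭 ≤ orig' ρ Ω →
        C (PowerSeries.X : PowerSeries Ω) ∈ 𝔭 → 𝔭 = orig' ρ Ω

/-- **VF-FIN** -/
def S_FIN : Prop :=
  ∀ (Ω ρ : Type) [Field Ω] [Fintype ρ] (𝔮 : Ideal (MvPolynomial ρ (PowerSeries Ω))),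
    𝔮.IsPrime → 𝔮 ≤ orig' ρ Ω → C (PowerSeries.X : PowerSeries Ω) ∉ 𝔮 →
    (∀ 𝔭 : Ideal (MvPolynomial ρ (PowerSeries Ω)), 𝔭.IsPrime → 𝔮 ≤ 𝔭 → 𝔭 ≤ orig' ρ Ω →
        C (PowerSeries.X : PowerSeries Ω) ∈ 𝔭 → 𝔭 = orig' ρ Ω) →
    ∃ (D : Type) (_ : CommRing D) (_ : IsDomain D) (_ : Algebra (PowerSeries Ω) D)
      (h : ρ → D), Module.Finite (PowerSeries Ω) D ∧
      Function.Injective (algebraMap (PowerSeries Ω) D) ∧
      (∀ p ∈ 𝔮, MvPolynomial.aeval h p = 0) ∧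
      ∀ v, ∃ (m : ℕ) (d : D), 0 < m ∧ h v ^ m = algebraMap (PowerSeries Ω) D PowerSeries.X * d

/-- **VF-PUI** -/
def S_PUI : Prop :=
  ∀ (Ω ρ D : Type) [Field Ω] [IsAlgClosed Ω] [CharZero Ω] [Fintype ρ] [CommRing D] [IsDomain D]
    [Algebra (PowerSeries Ω) D] (h : ρ → D), Module.Finite (PowerSeries Ω) D →
    Function.Injective (algebraMap (PowerSeries Ω) D) →
    (∀ v, ∃ (m : ℕ) (d : D), 0 < m ∧
      h v ^ m = algebraMap (PowerSeries Ω) D PowerSeries.X * d) →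
    ∃ (e : ℕ) (g : ρ → PowerSeries Ω), 0 < e ∧ (∀ v, PowerSeries.constantCoeff (g v) = 0) ∧
      ∀ (F : MvPolynomial ρ Ω) (γ : Ω),
        MvPolynomial.eval₂ ((algebraMap (PowerSeries Ω) D).comp PowerSeries.C) h F =
          algebraMap (PowerSeries Ω) D (PowerSeries.C γ * PowerSeries.X) →
        MvPolynomial.eval₂ PowerSeries.C g F = PowerSeries.C γ * PowerSeries.X ^ e

/-- **VF-CURVE**: follows from VF-MIN, VF-FIN, VF-PUI. -/
def S_CURVE : Prop :=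
  ∀ (Ω₁ Ω ρ : Type) [Field Ω₁] [Field Ω] [IsAlgClosed Ω] [CharZero Ω] [Algebra Ω₁ Ω] [Fintype ρ]
    (F : ρ → MvPolynomial ρ Ω₁) (γ : ρ → Ω), IsolatedAt F →
    ∃ (e : ℕ) (g : ρ → PowerSeries Ω), 0 < e ∧ (∀ v, PowerSeries.constantCoeff (g v) = 0) ∧
      ∀ a, MvPolynomial.eval₂ (PowerSeries.C.comp (algebraMap Ω₁ Ω)) g (F a) =
        PowerSeries.C (γ a) * PowerSeries.X ^ e

open Classical in
/-- **VF-ISO**: a minimal prime over a system of equations, seen from its generic point `w₀`, after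
a transcendence basis containing the given independent coordinates `x i` has been fixed. -/
def S_ISO : Prop :=
  ∀ (K σ ι J : Type) [Field K] [Fintype σ] [Fintype ι] [Fintype J]
    (x : ι → σ) (Eq : J → MvPolynomial σ K) (𝔓 : Ideal (MvPolynomial σ K)),
    𝔓 ∈ (Ideal.span (Set.range Eq)).minimalPrimes →
    AlgebraicIndependent K (fun i => Ideal.Quotient.mk 𝔓 (X (x i))) →
    ∃ (T : Set σ) (Ω₁ : Type) (_ : Field Ω₁) (_ : Algebra K Ω₁) (w₀ : σ → Ω₁),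
      (∀ i, x i ∈ T) ∧ (∀ p : MvPolynomial σ K, aeval w₀ p = 0 ↔ p ∈ 𝔓) ∧
      AlgebraicIndependent K (fun c : T => w₀ c) ∧
      IsolatedAt (ρ := ↥(Tᶜ)) fun j => MvPolynomial.aeval
        (fun c : σ => (C (w₀ c) + if h : c ∈ Tᶜ then X (⟨c, h⟩ : ↥(Tᶜ)) else 0 :
          MvPolynomial ↥(Tᶜ) Ω₁)) (Eq j)

/-- **VF-EXT** -/
def S_EXT : Prop :=
  ∀ (K σ ι : Type) [Field K] [IsAlgClosed K] [Fintype σ] [Fintype ι]
    (𝔓 : Ideal (MvPolynomial σ K)) (G : MvPolynomial σ K) (x : ι → MvPolynomial σ K)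
    (y : MvPolynomial σ K) (P : MvPolynomial ι K),
    𝔓.IsPrime → G ∉ 𝔓 →
    AlgebraicIndependent K (fun o : Option ι => Ideal.Quotient.mk 𝔓 (o.elim y x)) → P ≠ 0 →
    ∃ x₀ : ι → K, MvPolynomial.eval x₀ P ≠ 0 ∧
      Set.Infinite {c : K | ∃ w : σ → K, (∀ p ∈ 𝔓, MvPolynomial.eval w p = 0) ∧
        MvPolynomial.eval w G ≠ 0 ∧ (∀ i, MvPolynomial.eval w (x i) = x₀ i) ∧
        MvPolynomial.eval w y = c}

/-- **VF-AD** -/
def S_AD : Prop :=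
  ∀ (Ω : Type) [Field Ω] [CharZero Ω] (m R H : ℕ)
    (a b c : Fin R → Fin m → Fin m → PowerSeries Ω), 0 < m →
    (∀ i j j' k k' l : Fin m, ∀ d ≤ H,
      PowerSeries.coeff d (∑ t : Fin R, a t i j * b t j' k * c t k' l) =
        if d = H ∧ j = j' ∧ k = k' ∧ l = i then 1 else 0) →
    (m : ℝ) ^ Pool.Agent.H515R2.MMR.omega ≤ R

end Pool.Agent.W966.Vf
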