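import Pool.Agent.W966.Vf.Verif

/-!
# Unreliable hints and verification: final bounds
-/

set_option autoImplicit false

namespace Pool.Agent.W966.Vf

open MvPolynomial Module Filter Pool.Agent.W966.Mm Pool.Agent.H515R2.MMR

lemma agree_iff {K : Type} {n κ : ℕ} {C D : Matrix (Fin n) (Fin n) K} :
    AgreeIn κ C D ↔ ∃ S : Finset (Fin n × Fin n), κ ≤ S.card ∧ ∀ v ∈ S, C v.1 v.2 = D v.1 v.2 := by
  classical
  constructor
  · intro h
    refine ⟨Finset.univ.filter fun p : Fin n × Fin n => C p.1 p.2 = D p.1 p.2, ?_, fun v hv =>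
      (Finset.mem_filter.mp hv).2⟩
    unfold AgreeIn at h
    convert h
  · rintro ⟨S, hS, h⟩
    unfold AgreeIn
    refine hS.trans (Finset.card_le_card fun v hv => ?_)
    rw [Finset.mem_filter]
    exact ⟨Finset.mem_univ _, h v hv⟩

lemma agree_self {K : Type} {n κ : ℕ} (C : Matrix (Fin n) (Fin n) K) (hκ : κ ≤ n ^ 2) :
    AgreeIn κ C C := by
  rw [agree_iff]
  refine ⟨Finset.univ, ?_, fun _ _ => rfl⟩
  rw [Finset.card_univ, Fintype.card_prod, Fintype.card_fin, ← pow_two]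
  exact hκ

lemma agree_full {K : Type} {n : ℕ} {C D : Matrix (Fin n) (Fin n) K} (h : AgreeIn (n ^ 2) C D) :
    C = D := by
  obtain ⟨S, hS, hv⟩ := agree_iff.mp h
  have : S = Finset.univ := by
    refine Finset.eq_univ_of_card S (le_antisymm (Finset.card_le_univ S) ?_)
    rw [Fintype.card_prod, Fintype.card_fin, ← pow_two]
    exact hS
  refine Matrix.ext fun i j => hv (i, j) ?_
  rw [this]
  exact Finset.mem_univ _

/-- For a Zariski dense set of pairs `A, B` there is an advice of `Q` field elements with which the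
algorithm `t` can give an output, and all its possible outputs agree with `A B` in at least `κ`
entries. -/
def Reliable {K : Type} [Field K] {n : ℕ} (t : QTree K n) (Q κ L : ℕ) : Prop :=
  DenseFor fun A B : Matrix (Fin n) (Fin n) K => ∃ a : ℕ → K,
    (Outputs t A B Q a L).Nonempty ∧ ∀ C ∈ Outputs t A B Q a L, AgreeIn κ C (A * B)

/-- For a Zariski dense set of pairs `A, B` there are an advice of `Q` field elements with which the
algorithm `t` can output `A B`, and `M` matrices such that every possible output agrees with one of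
them in at least `κ` entries. -/
def ReliableList {K : Type} [Field K] {n : ℕ} (t : QTree K n) (Q κ L M : ℕ) : Prop :=
  DenseFor fun A B : Matrix (Fin n) (Fin n) K => ∃ (a : ℕ → K)
    (𝒞 : Fin M → Matrix (Fin n) (Fin n) K), A * B ∈ Outputs t A B Q a L ∧
      ∀ C ∈ Outputs t A B Q a L, ∃ i, AgreeIn κ C (𝒞 i)

/-- For a Zariski dense set of pairs `A, B`, the verification procedure `t` can accept `A, B, A B`
and cannot accept `A, B, C` for any other `C`. -/
def Verifies {K : Type} [Field K] {n : ℕ} (t : QTree K n) (L : ℕ) : Prop :=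
  DenseFor fun A B : Matrix (Fin n) (Fin n) K => Accepts t A B (A * B) L ∧
    ∀ C, Accepts t A B C L → C = A * B

/-- For a Zariski dense set of pairs `A, B`, the verification procedure `t` can accept `A, B, A B`,
and there are `M` matrices such that each `C` which it can accept agrees with one of them in at
least `κ` entries. -/
def VerifiesList {K : Type} [Field K] {n : ℕ} (t : QTree K n) (κ L M : ℕ) : Prop :=
  DenseFor fun A B : Matrix (Fin n) (Fin n) K => Accepts t A B (A * B) L ∧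
    ∃ 𝒞 : Fin M → Matrix (Fin n) (Fin n) K, ∀ C, Accepts t A B C L → ∃ i, AgreeIn κ C (𝒞 i)

section

variable {K : Type} [Field K] [IsAlgClosed K] [CharZero K] {n m L Q κ M : ℕ} (t : QTree K n)

/-- Reliable outputs. -/
theorem sound_bound (hm0 : 0 < m) (hm : m ≤ n) (hdim : Q + n ^ 2 < (n - m + 1) ^ 2 + κ)
    (H : DenseFor fun A B : Matrix (Fin n) (Fin n) K => ∃ a : ℕ → K,
      (Outputs t A B Q a L).Nonempty ∧ ∀ C ∈ Outputs t A B Q a L, AgreeIn κ C (A * B)) :
    (m : ℝ) ^ omega ≤ 2 * L := by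
  refine gen_bound (M := 1) (K₀ := κ) t (fun p hp => ?_) hm0 hm hdim
  obtain ⟨A, B, h1, a, ⟨C₀, h2⟩, h3⟩ := H p hp
  exact ⟨A, B, h1, a, fun _ => A * B, fun C hC => ⟨0, h3 C hC⟩, C₀, h2, fun _ _ _ _ _ _ => rfl⟩

/-- Boundedly many outputs. -/
theorem list_bound (hm0 : 0 < m) (hm : m ≤ n) (hdim : Q + n ^ 2 < (n - m + 1) ^ 2 + κ)
    (H : DenseFor fun A B : Matrix (Fin n) (Fin n) K => ∃ (a : ℕ → K)
      (𝒞 : Fin M → Matrix (Fin n) (Fin n) K), A * B ∈ Outputs t A B Q a L ∧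
        ∀ C ∈ Outputs t A B Q a L, ∃ i, AgreeIn κ C (𝒞 i)) :
    (m : ℝ) ^ omega ≤ 2 * L := by
  refine gen_bound (M := M) (K₀ := κ) t (fun p hp => ?_) hm0 hm hdim
  obtain ⟨A, B, h1, a, 𝒞, h2, h3⟩ := H p hp
  exact ⟨A, B, h1, a, 𝒞, h3, A * B, h2, fun i S _ h v hv => (h v hv).symm⟩

/-- Verification. -/
theorem verif_bound (hm0 : 0 < m) (hm : m ≤ n) (hdim : n ^ 2 < (n - m + 1) ^ 2 + κ)
    (H : DenseFor fun A B : Matrix (Fin n) (Fin n) K => Accepts t A B (A * B) L ∧
      ∃ 𝒞 : Fin M → Matrix (Fin n) (Fin n) K, ∀ C, Accepts t A B C L → ∃ i, AgreeIn κ C (𝒞 i)) :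
    (m : ℝ) ^ omega ≤ 2 * L := by
  refine list_bound (M := M) (κ := κ) (Q := 0) (askN (n * n) (setOut (firstM K n) t)) hm0 hm
    (by omega) (fun p hp => ?_)
  obtain ⟨A, B, h1, h2, 𝒞, h3⟩ := H p hp
  refine ⟨A, B, h1, 0, 𝒞, ?_, ?_⟩
  · rw [outputs_verif]
    exact h2
  · rw [outputs_verif]
    exact h3

end

/-- The size of a block. -/
lemma exists_block {n κ Q : ℕ} {ε : ℝ} (hε : 0 < ε) (hn : 0 < n) (hκ : κ ≤ n ^ 2)
    (hd : ε * (n : ℝ) ^ 2 + Q ≤ κ) :
    ∃ m : ℕ, 0 < m ∧ m ≤ n ∧ Q + n ^ 2 < (n - m + 1) ^ 2 + κ ∧ ε / 2 * n ≤ m := by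
  have hn0 : (0 : ℝ) < n := by exact_mod_cast hn
  have hε1 : ε ≤ 1 := by
    have h1 : (κ : ℝ) ≤ (n : ℝ) ^ 2 := by exact_mod_cast hκ
    have h2 : (0 : ℝ) ≤ Q := Nat.cast_nonneg Q
    have h3 : 0 < (n : ℝ) ^ 2 := by positivity
    by_contra hcon
    push Not at hcon
    nlinarith
  obtain ⟨q, hq1, hq2⟩ : ∃ q : ℕ, (q : ℝ) ≤ ε / 2 * n ∧ ε / 2 * n < (q : ℝ) + 1 :=
    ⟨⌊ε / 2 * n⌋₊, Nat.floor_le (by positivity), Nat.lt_floor_add_one _⟩
  have hqn : q + 1 ≤ n := by
    by_contra hcon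
    push Not at hcon
    have : (n : ℝ) ≤ q := by exact_mod_cast (by omega : n ≤ q)
    nlinarith
  refine ⟨q + 1, Nat.succ_pos _, hqn, ?_, by push_cast; linarith⟩
  obtain ⟨r, hr⟩ : ∃ r, n = r + (q + 1) := ⟨n - (q + 1), by omega⟩
  have e1 : n - (q + 1) + 1 = r + 1 := by omega
  rw [e1]
  have h1 : ((r : ℝ) + 1) = n - q := by rw [hr]; push_cast; ring
  have : ((Q + n ^ 2 : ℕ) : ℝ) < (((r + 1) ^ 2 + κ : ℕ) : ℝ) := by
    push_cast
    rw [h1]
    have h3 : ((n : ℝ) - ε / 2 * n) ^ 2 ≤ ((n : ℝ) - q) ^ 2 := by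
      refine pow_le_pow_left₀ ?_ (by linarith) 2
      nlinarith
    have h4 : 0 < (ε / 2 * (n : ℝ)) ^ 2 := by positivity
    nlinarith
  exact_mod_cast this

lemma real_bound {n κ Q L : ℕ} {ε : ℝ} (hε : 0 < ε) (hn : 0 < n) (hκ : κ ≤ n ^ 2)
    (hd : ε * (n : ℝ) ^ 2 + Q ≤ κ)
    (h : ∀ m : ℕ, 0 < m → m ≤ n → Q + n ^ 2 < (n - m + 1) ^ 2 + κ → (m : ℝ) ^ omega ≤ 2 * L) :
    (ε / 2 * n) ^ omega ≤ 2 * L := by
  obtain ⟨m, h1, h2, h3, h4⟩ := exists_block hε hn hκ hd
  exact (Real.rpow_le_rpow (by positivity) h4 omega_nonneg).trans (h m h1 h2 h3)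

/-- **Reliable advice makes products free.** -/
theorem advice_sharp (K : Type) [Field K] (n Q : ℕ) (hQ : Q ≤ n ^ 2) :
    ∃ t : QTree K n, ∀ A B : Matrix (Fin n) (Fin n) K, ∃ a : ℕ → K,
      (Outputs t A B Q a 0).Nonempty ∧ ∀ C ∈ Outputs t A B Q a 0, AgreeIn Q C (A * B) := by
  classical
  let M : Fin n → Fin n → Lin K n := fun i j =>
    cut (reg K n (finProdFinEquiv (i, j) : Fin (n * n))) Q
  refine ⟨.output M, fun A B => ⟨vecM (A * B), ?_, ?_⟩⟩
  · exact ⟨Matrix.of fun i j => (M i j).val A B Q (vecM (A * B)), 0, rfl⟩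
  · rintro C ⟨G, hG⟩
    have hC : (Matrix.of fun i j => (M i j).val A B Q (vecM (A * B))) = C := hG
    rw [agree_iff]
    refine ⟨(Finset.univ.filter fun s : Fin (n * n) => (s : ℕ) < Q).image
      (finProdFinEquiv (m := n) (n := n)).symm, ?_, ?_⟩
    · rw [Finset.card_image_of_injective _ (Equiv.injective _)]
      have h1 : (Finset.univ : Finset (Fin Q)).map (Fin.castLEEmb (by rw [← pow_two]; exact hQ)) ⊆
          Finset.univ.filter fun s : Fin (n * n) => (s : ℕ) < Q := by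
        intro s hs
        rw [Finset.mem_map] at hs
        obtain ⟨r, -, rfl⟩ := hs
        rw [Finset.mem_filter]
        exact ⟨Finset.mem_univ _, r.2⟩
      have h2 := Finset.card_le_card h1
      rwa [Finset.card_map, Finset.card_univ, Fintype.card_fin] at h2
    · intro v hv
      rw [Finset.mem_image] at hv
      obtain ⟨s, hs, rfl⟩ := hv
      have hsQ : (s : ℕ) < Q := (Finset.mem_filter.mp hs).2
      rw [← hC]
      show (M _ _).val A B Q (vecM (A * B)) = _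
      have e1 : (finProdFinEquiv ((finProdFinEquiv.symm s).1, (finProdFinEquiv.symm s).2) :
          Fin (n * n)) = s := by
        rw [Prod.mk.eta, Equiv.apply_symm_apply]
      simp only [M, e1]
      rw [cut_val _ le_rfl, reg_val hsQ]
      simp only [vecM, dif_pos s.2]

end Pool.Agent.W966.Vf
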