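import Pool.Agent.W966.Mm.Tree

/-!
# Paths through an algorithm with queries
-/

set_option autoImplicit false

namespace Pool.Agent.W966.Vf

open Pool.Agent.W966.Mm

/-- A path through an algorithm: a computation without branchings. -/
inductive Path (k : Type) (n : ℕ) : Type
  | stop (M : Fin n → Fin n → Lin k n) : Path k n
  | mul (f h : Lin k n) (next : Path k n) : Path k n
  | div (f h : Lin k n) (next : Path k n) : Path k n
  | guess (next : Path k n) : Path k n
  | isz (f : Lin k n) (next : Path k n) : Path k n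
  | nz (f : Lin k n) (next : Path k n) : Path k n

variable {k : Type} [Field k] {n : ℕ}

/-- The registers `g` are the results along the path. -/
def Path.Ok (A B : Matrix (Fin n) (Fin n) k) (g : ℕ → k) : Path k n → ℕ → Prop
  | .stop _, _ => True
  | .mul f h next, l => g l = f.val A B l g * h.val A B l g ∧ next.Ok A B g (l + 1)
  | .div f h next, l => h.val A B l g ≠ 0 ∧ g l = f.val A B l g / h.val A B l g ∧
      next.Ok A B g (l + 1)
  | .guess next, l => next.Ok A B g (l + 1)
  | .isz f next, l => f.val A B l g = 0 ∧ next.Ok A B g l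
  | .nz f next, l => f.val A B l g ≠ 0 ∧ next.Ok A B g l

/-- The number of registers at the end. -/
def Path.fin : Path k n → ℕ → ℕ
  | .stop _, l => l
  | .mul _ _ next, l => next.fin (l + 1)
  | .div _ _ next, l => next.fin (l + 1)
  | .guess next, l => next.fin (l + 1)
  | .isz _ next, l => next.fin l
  | .nz _ next, l => next.fin l

/-- The number of multiplications and divisions. -/
def Path.muls : Path k n → ℕ
  | .stop _ => 0
  | .mul _ _ next => next.muls + 1
  | .div _ _ next => next.muls + 1
  | .guess next => next.muls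
  | .isz _ next => next.muls
  | .nz _ next => next.muls

/-- The output. -/
def Path.out : Path k n → Fin n → Fin n → Lin k n
  | .stop M => M
  | .mul _ _ next => next.out
  | .div _ _ next => next.out
  | .guess next => next.out
  | .isz _ next => next.out
  | .nz _ next => next.out

/-- The output matrix. -/
def Path.outM (p : Path k n) (A B : Matrix (Fin n) (Fin n) k) (g : ℕ → k) (l : ℕ) :
    Matrix (Fin n) (Fin n) k :=
  Matrix.of fun i j => (p.out i j).val A B (p.fin l) g

/-- The paths of an algorithm. -/
def paths : QTree k n → Set (Path k n)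
  | .output M => {.stop M}
  | .mul f h next => Path.mul f h '' paths next
  | .div f h next => Path.div f h '' paths next
  | .query next => Path.guess '' paths next
  | .test f yes no => Path.isz f '' paths yes ∪ Path.nz f '' paths no
  | .choose _ next => ⋃ i, paths (next i)

lemma paths_finite (t : QTree k n) : (paths t).Finite := by
  induction t with
  | output M => exact Set.finite_singleton _
  | mul f h next ih => exact ih.image _
  | div f h next ih => exact ih.image _
  | query next ih => exact ih.image _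
  | test f yes no ihy ihn => exact (ihy.image _).union (ihn.image _)
  | choose r next ih => exact Set.finite_iUnion ih

/-- **From runs to paths.** -/
theorem path_of_can (A B : Matrix (Fin n) (Fin n) k) (E : Matrix (Fin n) (Fin n) k → Prop)
    (t : QTree k n) : ∀ (l : ℕ) (g : ℕ → k) (L Q : ℕ), t.CanOutput A B E l g L Q →
      ∃ p ∈ paths t, p.muls ≤ L ∧ ∃ g' : ℕ → k, (∀ s < l, g' s = g s) ∧ p.Ok A B g' l ∧
        E (p.outM A B g' l) := by
  induction t with
  | output M =>
    intro l g L Q h
    exact ⟨.stop M, rfl, Nat.zero_le _, g, fun _ _ => rfl, trivial, h⟩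
  | mul f h next ih =>
    intro l g L Q hh
    obtain ⟨p, hp, hm, g', hg', hok, hE⟩ := ih _ _ _ _ hh.2
    have hlt : ∀ s < l, g' s = g s := fun s hs => by
      rw [hg' s (by omega), Function.update_of_ne (by omega)]
    refine ⟨.mul f h p, ⟨p, hp, rfl⟩, ?_, g', hlt, ⟨?_, hok⟩, hE⟩
    · have := hh.1
      simp only [Path.muls]
      omega
    · rw [hg' l (by omega), Function.update_self, f.val_congr _ _ hlt, h.val_congr _ _ hlt]
  | div f h next ih =>
    intro l g L Q hh
    obtain ⟨p, hp, hm, g', hg', hok, hE⟩ := ih _ _ _ _ hh.2.2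
    have hlt : ∀ s < l, g' s = g s := fun s hs => by
      rw [hg' s (by omega), Function.update_of_ne (by omega)]
    refine ⟨.div f h p, ⟨p, hp, rfl⟩, ?_, g', hlt, ⟨?_, ?_, hok⟩, hE⟩
    · have := hh.1
      simp only [Path.muls]
      omega
    · rw [h.val_congr _ _ hlt]
      exact hh.2.1
    · rw [hg' l (by omega), Function.update_self, f.val_congr _ _ hlt, h.val_congr _ _ hlt]
  | query next ih =>
    intro l g L Q hh
    obtain ⟨-, v, hv⟩ := hh
    obtain ⟨p, hp, hm, g', hg', hok, hE⟩ := ih _ _ _ _ hv
    have hlt : ∀ s < l, g' s = g s := fun s hs => by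
      rw [hg' s (by omega), Function.update_of_ne (by omega)]
    exact ⟨.guess p, ⟨p, hp, rfl⟩, hm, g', hlt, hok, hE⟩
  | test f yes no ihy ihn =>
    intro l g L Q hh
    rcases hh with hh | hh
    · obtain ⟨p, hp, hm, g', hg', hok, hE⟩ := ihy _ _ _ _ hh.2
      refine ⟨.isz f p, Or.inl ⟨p, hp, rfl⟩, hm, g', hg', ⟨?_, hok⟩, hE⟩
      rw [f.val_congr _ _ hg']
      exact hh.1
    · obtain ⟨p, hp, hm, g', hg', hok, hE⟩ := ihn _ _ _ _ hh.2
      refine ⟨.nz f p, Or.inr ⟨p, hp, rfl⟩, hm, g', hg', ⟨?_, hok⟩, hE⟩
      rw [f.val_congr _ _ hg']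
      exact hh.1
  | choose r next ih =>
    intro l g L Q hh
    obtain ⟨i, hi⟩ := hh
    obtain ⟨p, hp, hm, g', hg', hok, hE⟩ := ih i _ _ _ _ hi
    exact ⟨p, Set.mem_iUnion.mpr ⟨i, hp⟩, hm, g', hg', hok, hE⟩

/-- **From paths to runs.** -/
theorem can_of_path (A B : Matrix (Fin n) (Fin n) k) (E : Matrix (Fin n) (Fin n) k → Prop)
    (t : QTree k n) : ∀ (l : ℕ) (g : ℕ → k) (L : ℕ) (p : Path k n), p ∈ paths t → p.muls ≤ L →
      ∀ g' : ℕ → k, (∀ s < l, g' s = g s) → p.Ok A B g' l → E (p.outM A B g' l) →
        ∃ Q, t.CanOutput A B E l g L Q := by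
  induction t with
  | output M =>
    intro l g L p hp hm g' hg' hok hE
    have hp' : p = .stop M := hp
    subst hp'
    refine ⟨0, ?_⟩
    show E _
    have : (Matrix.of fun i j => (M i j).val A B l g) = Path.outM (.stop M) A B g' l := by
      refine Matrix.ext fun i j => ?_
      exact (M i j).val_congr _ _ fun s hs => (hg' s hs).symm
    rw [this]
    exact hE
  | mul f h next ih =>
    rintro l g L _ ⟨p, hp, rfl⟩ hm g' hg' hok hE
    have h1 : (Path.mul f h p).muls = p.muls + 1 := rfl
    have e : f.val A B l g * h.val A B l g = g' l := by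
      rw [hok.1, f.val_congr _ _ hg', h.val_congr _ _ hg']
    obtain ⟨Q, hQ⟩ := ih (l + 1) (Function.update g l (g' l)) (L - 1) p hp (by omega) g'
      (fun s hs => by
        rcases Nat.lt_succ_iff_lt_or_eq.mp hs with h | rfl
        · rw [Function.update_of_ne (by omega), hg' s h]
        · rw [Function.update_self]) hok.2 hE
    refine ⟨Q, by omega, ?_⟩
    rw [e]
    exact hQ
  | div f h next ih =>
    rintro l g L _ ⟨p, hp, rfl⟩ hm g' hg' hok hE
    have h1 : (Path.div f h p).muls = p.muls + 1 := rfl
    have e : f.val A B l g / h.val A B l g = g' l := by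
      rw [hok.2.1, f.val_congr _ _ hg', h.val_congr _ _ hg']
    obtain ⟨Q, hQ⟩ := ih (l + 1) (Function.update g l (g' l)) (L - 1) p hp (by omega) g'
      (fun s hs => by
        rcases Nat.lt_succ_iff_lt_or_eq.mp hs with h | rfl
        · rw [Function.update_of_ne (by omega), hg' s h]
        · rw [Function.update_self]) hok.2.2 hE
    refine ⟨Q, by omega, ?_, ?_⟩
    · have := hok.1
      rwa [h.val_congr _ _ hg'] at this
    · rw [e]
      exact hQ
  | query next ih =>
    rintro l g L _ ⟨p, hp, rfl⟩ hm g' hg' hok hE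
    obtain ⟨Q, hQ⟩ := ih (l + 1) (Function.update g l (g' l)) L p hp hm g'
      (fun s hs => by
        rcases Nat.lt_succ_iff_lt_or_eq.mp hs with h | rfl
        · rw [Function.update_of_ne (by omega), hg' s h]
        · rw [Function.update_self]) hok hE
    exact ⟨Q + 1, by omega, g' l, hQ⟩
  | test f yes no ihy ihn =>
    rintro l g L p (⟨p, hp, rfl⟩ | ⟨p, hp, rfl⟩) hm g' hg' hok hE
    · obtain ⟨Q, hQ⟩ := ihy l g L p hp hm g' hg' hok.2 hE
      refine ⟨Q, Or.inl ⟨?_, hQ⟩⟩
      rw [← f.val_congr _ _ hg']
      exact hok.1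
    · obtain ⟨Q, hQ⟩ := ihn l g L p hp hm g' hg' hok.2 hE
      refine ⟨Q, Or.inr ⟨?_, hQ⟩⟩
      rw [← f.val_congr _ _ hg']
      exact hok.1
  | choose r next ih =>
    intro l g L p hp hm g' hg' hok hE
    obtain ⟨i, hi⟩ := Set.mem_iUnion.mp hp
    obtain ⟨Q, hQ⟩ := ih i l g L p hi hm g' hg' hok hE
    exact ⟨Q, i, hQ⟩

/-! ### The equations of a path -/

/-- Cut off the registers from `l` on. -/
def cut (f : Lin k n) (l : ℕ) : Lin k n := { f with r := fun s => if s < l then f.r s else 0 }

/-- A register. -/
def reg (k : Type) [Field k] (n l : ℕ) : Lin k n := ⟨0, 0, 0, Pi.single l 1⟩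

lemma cut_val (f : Lin k n) {l l' : ℕ} (hl : l ≤ l') (A B : Matrix (Fin n) (Fin n) k)
    (g : ℕ → k) : (cut f l).val A B l' g = f.val A B l g := by
  unfold Lin.val cut
  congr 1
  simp only [ite_mul, zero_mul]
  rw [← Finset.sum_filter]
  refine Finset.sum_congr ?_ fun _ _ => rfl
  ext s
  simp only [Finset.mem_filter, Finset.mem_range]
  omega

lemma reg_val {l l' : ℕ} (hl : l < l') (A B : Matrix (Fin n) (Fin n) k) (g : ℕ → k) :
    (reg k n l).val A B l' g = g l := by
  unfold Lin.val reg
  simp [Pi.single_apply, hl]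

/-- The equations `α β = δ`. -/
def Path.msys : Path k n → ℕ → List (Lin k n × Lin k n × Lin k n)
  | .stop _, _ => []
  | .mul f h next, l => (cut f l, cut h l, reg k n l) :: next.msys (l + 1)
  | .div f h next, l => (reg k n l, cut h l, cut f l) :: next.msys (l + 1)
  | .guess next, l => next.msys (l + 1)
  | .isz _ next, l => next.msys l
  | .nz _ next, l => next.msys l

/-- The linear equations. -/
def Path.lsys : Path k n → ℕ → List (Lin k n)
  | .stop _, _ => []
  | .mul _ _ next, l => next.lsys (l + 1)
  | .div _ _ next, l => next.lsys (l + 1)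
  | .guess next, l => next.lsys (l + 1)
  | .isz f next, l => cut f l :: next.lsys l
  | .nz _ next, l => next.lsys l

/-- The forms which are not zero. -/
def Path.nsys : Path k n → ℕ → List (Lin k n)
  | .stop _, _ => []
  | .mul _ _ next, l => next.nsys (l + 1)
  | .div _ h next, l => cut h l :: next.nsys (l + 1)
  | .guess next, l => next.nsys (l + 1)
  | .isz _ next, l => next.nsys l
  | .nz f next, l => cut f l :: next.nsys l

lemma Path.msys_length (p : Path k n) : ∀ l, (p.msys l).length = p.muls := by
  induction p with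
  | stop M => exact fun _ => rfl
  | mul f h next ih => exact fun l => by simp [Path.msys, Path.muls, ih]
  | div f h next ih => exact fun l => by simp [Path.msys, Path.muls, ih]
  | guess next ih => exact fun l => ih _
  | isz f next ih => exact fun l => ih _
  | nz f next ih => exact fun l => ih _

lemma Path.le_fin (p : Path k n) : ∀ l, l ≤ p.fin l := by
  induction p with
  | stop M => exact fun _ => le_rfl
  | mul f h next ih => exact fun l => (Nat.le_succ l).trans (ih _)
  | div f h next ih => exact fun l => (Nat.le_succ l).trans (ih _)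
  | guess next ih => exact fun l => (Nat.le_succ l).trans (ih _)
  | isz f next ih => exact fun l => ih _
  | nz f next ih => exact fun l => ih _

theorem Path.ok_iff (A B : Matrix (Fin n) (Fin n) k) (g : ℕ → k) (p : Path k n) :
    ∀ l l', p.fin l ≤ l' → (p.Ok A B g l ↔
      (∀ x ∈ p.msys l, x.1.val A B l' g * x.2.1.val A B l' g = x.2.2.val A B l' g) ∧
      (∀ x ∈ p.lsys l, x.val A B l' g = 0) ∧ (∀ x ∈ p.nsys l, x.val A B l' g ≠ 0)) := by
  induction p with
  | stop M => intro l l' _; simp [Path.Ok, Path.msys, Path.lsys, Path.nsys]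
  | mul f h next ih =>
    intro l l' hl
    have h0 : next.fin (l + 1) ≤ l' := hl
    have h1 := next.le_fin (l + 1)
    simp only [Path.Ok, Path.msys, Path.lsys, Path.nsys, List.forall_mem_cons, ih (l + 1) l' h0]
    rw [cut_val f (by omega), cut_val h (by omega), reg_val (by omega), eq_comm, and_assoc]
  | div f h next ih =>
    intro l l' hl
    have h0 : next.fin (l + 1) ≤ l' := hl
    have h1 := next.le_fin (l + 1)
    simp only [Path.Ok, Path.msys, Path.lsys, Path.nsys, List.forall_mem_cons, ih (l + 1) l' h0]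
    rw [cut_val f (by omega), cut_val h (by omega), reg_val (by omega)]
    constructor
    · rintro ⟨a1, a2, a3, a4, a5⟩
      exact ⟨⟨by rw [a2, div_mul_cancel₀ _ a1], a3⟩, a4, a1, a5⟩
    · rintro ⟨⟨a2, a3⟩, a4, a1, a5⟩
      exact ⟨a1, by rw [← a2, mul_div_cancel_right₀ _ a1], a3, a4, a5⟩
  | guess next ih =>
    intro l l' hl
    simp only [Path.Ok, Path.msys, Path.lsys, Path.nsys]
    exact ih (l + 1) l' hl
  | isz f next ih =>
    intro l l' hl
    have h0 : next.fin l ≤ l' := hl
    have h1 := next.le_fin l
    simp only [Path.Ok, Path.msys, Path.lsys, Path.nsys, List.forall_mem_cons, ih l l' h0]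
    rw [cut_val f (by omega)]
    tauto
  | nz f next ih =>
    intro l l' hl
    have h0 : next.fin l ≤ l' := hl
    have h1 := next.le_fin l
    simp only [Path.Ok, Path.msys, Path.lsys, Path.nsys, List.forall_mem_cons, ih l l' h0]
    rw [cut_val f (by omega)]
    tauto

end Pool.Agent.W966.Vf
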