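import Mathlib

/-!
# Ultrapowers of an algebraically closed field
-/

set_option autoImplicit false

namespace Pool.Agent.W966.Vf

open MvPolynomial Filter

section

variable {K : Type} [Field K] {I : Type} (𝒰 : Ultrafilter I)

/-- The ultrapower. -/
def UP (K : Type) {I : Type} (𝒰 : Ultrafilter I) : Type := (𝒰 : Filter I).Germ K

noncomputable instance : Field (UP K 𝒰) := inferInstanceAs (Field ((𝒰 : Filter I).Germ K))

/-- The class of a family. -/
noncomputable def cu : (I → K) →+* UP K 𝒰 := Filter.Germ.coeRingHom (𝒰 : Filter I)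

noncomputable instance : Algebra K (UP K 𝒰) := ((cu 𝒰).comp (Pi.constRingHom I K)).toAlgebra

variable {𝒰}

lemma algebraMap_UP (c : K) : algebraMap K (UP K 𝒰) c = cu 𝒰 (fun _ => c) := rfl

lemma cu_eq {x y : I → K} : cu 𝒰 x = cu 𝒰 y ↔ ∀ᶠ S in (𝒰 : Filter I), x S = y S :=
  Filter.Germ.coe_eq

lemma cu_eq_zero {x : I → K} : cu 𝒰 x = 0 ↔ ∀ᶠ S in (𝒰 : Filter I), x S = 0 := by
  rw [← map_zero (cu 𝒰), cu_eq]; rfl

lemma cu_ne_zero {x : I → K} : cu 𝒰 x ≠ 0 ↔ ∀ᶠ S in (𝒰 : Filter I), x S ≠ 0 := by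
  rw [Ne, cu_eq_zero, Ultrafilter.eventually_not]

lemma cu_surj : Function.Surjective (cu (K := K) 𝒰) := fun x => by
  induction x using Quotient.inductionOn' with
  | h f => exact ⟨f, rfl⟩

lemma aeval_cu {κ : Type} (a : I → κ → K) (p : MvPolynomial κ K) :
    aeval (fun l => cu 𝒰 (fun S => a S l)) p = cu 𝒰 (fun S => eval (a S) p) := by
  induction p using MvPolynomial.induction_on with
  | C c => simp [algebraMap_UP]
  | add p q hp hq =>
    rw [map_add, hp, hq, ← map_add]
    congr 1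
    funext S
    simp
  | mul_X p i hp =>
    rw [map_mul, hp, aeval_X, ← map_mul]
    congr 1
    funext S
    simp

instance [IsAlgClosed K] : IsAlgClosed (UP K 𝒰) := by
  refine IsAlgClosed.of_exists_root _ fun p hp hirr => ?_
  choose r hr using cu_surj (K := K) (𝒰 := 𝒰)
  have hdeg : 0 < p.natDegree := hirr.natDegree_pos
  let q : I → Polynomial K := fun S =>
    Polynomial.X ^ p.natDegree + ∑ i ∈ Finset.range p.natDegree,
      Polynomial.C (r (p.coeff i) S) * Polynomial.X ^ i
  have hlt : ∀ S, (∑ i ∈ Finset.range p.natDegree,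
      Polynomial.C (r (p.coeff i) S) * Polynomial.X ^ i).degree < (p.natDegree : WithBot ℕ) := by
    intro S
    refine (Polynomial.degree_sum_le _ _).trans_lt ?_
    rw [Finset.sup_lt_iff (by exact WithBot.bot_lt_coe _)]
    intro i hi
    refine (Polynomial.degree_C_mul_X_pow_le _ _).trans_lt ?_
    exact_mod_cast Finset.mem_range.mp hi
  have hq : ∀ S, (q S).degree = p.natDegree := by
    intro S
    have : (Polynomial.X ^ p.natDegree : Polynomial K).degree = (p.natDegree : WithBot ℕ) :=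
      Polynomial.degree_X_pow _
    rw [← this]
    refine Polynomial.degree_add_eq_left_of_degree_lt ?_
    rw [this]
    exact hlt S
  have hroot : ∀ S, ∃ x, (q S).eval x = 0 := by
    intro S
    refine IsAlgClosed.exists_root (q S) ?_
    rw [hq S]
    exact_mod_cast hdeg.ne'
  choose x hx using hroot
  refine ⟨cu 𝒰 x, ?_⟩
  have hx' : ∀ S, x S ^ p.natDegree + ∑ i ∈ Finset.range p.natDegree,
      r (p.coeff i) S * x S ^ i = 0 := by
    intro S
    have := hx S
    simp only [q, Polynomial.eval_add, Polynomial.eval_pow, Polynomial.eval_X,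
      Polynomial.eval_finsetSum, Polynomial.eval_mul, Polynomial.eval_C] at this
    exact this
  rw [Polynomial.eval_eq_sum_range, Finset.sum_range_succ]
  have hlead : p.coeff p.natDegree = 1 := hp
  rw [hlead, one_mul, add_comm]
  have e : cu 𝒰 x ^ p.natDegree + ∑ i ∈ Finset.range p.natDegree, p.coeff i * cu 𝒰 x ^ i =
      cu 𝒰 (fun S => x S ^ p.natDegree + ∑ i ∈ Finset.range p.natDegree,
        r (p.coeff i) S * x S ^ i) := by
    have e1 : (fun S => x S ^ p.natDegree + ∑ i ∈ Finset.range p.natDegree,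
        r (p.coeff i) S * x S ^ i) = x ^ p.natDegree + ∑ i ∈ Finset.range p.natDegree,
        r (p.coeff i) * x ^ i := by
      funext S
      simp
    rw [e1, map_add, map_pow, map_sum]
    congr 1
    refine Finset.sum_congr rfl fun i _ => ?_
    rw [map_mul, map_pow, hr]
  rw [e, cu_eq_zero]
  exact Filter.Eventually.of_forall hx'

end

/-- **A generic point with values in a dense set.** -/
theorem exists_generic_dense {K : Type} [Field K] {κ : Type} (Dn : (κ → K) → Prop)
    (hD : ∀ p : MvPolynomial κ K, p ≠ 0 → ∃ a, eval a p ≠ 0 ∧ Dn a) :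
    ∃ (I : Type) (𝒰 : Ultrafilter I) (a : I → κ → K), (∀ S, Dn (a S)) ∧
      AlgebraicIndependent K (fun l => cu 𝒰 (fun S => a S l)) := by
  classical
  have hpt : ∀ S : Finset {p : MvPolynomial κ K // p ≠ 0}, ∃ a : κ → K, Dn a ∧
      ∀ p ∈ S, eval a (p : MvPolynomial κ K) ≠ 0 := by
    intro S
    have hne : (∏ p ∈ S, (p : MvPolynomial κ K)) ≠ 0 :=
      Finset.prod_ne_zero_iff.mpr fun p _ => p.2
    obtain ⟨a, ha, hDa⟩ := hD _ hne
    rw [map_prod] at ha
    exact ⟨a, hDa, Finset.prod_ne_zero_iff.mp ha⟩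
  choose a ha1 ha2 using hpt
  refine ⟨_, Ultrafilter.of (atTop : Filter (Finset {p : MvPolynomial κ K // p ≠ 0})), a, ha1, ?_⟩
  rw [algebraicIndependent_iff]
  intro p hp
  by_contra hp0
  rw [aeval_cu a p, cu_eq_zero] at hp
  have h1 : ∀ᶠ S in ((Ultrafilter.of (atTop : Filter (Finset {p : MvPolynomial κ K // p ≠ 0})) :
      Ultrafilter _) : Filter (Finset {p : MvPolynomial κ K // p ≠ 0})),
        (⟨p, hp0⟩ : {p : MvPolynomial κ K // p ≠ 0}) ∈ S := by
    have h2 : ∀ᶠ S in (atTop : Filter (Finset {p : MvPolynomial κ K // p ≠ 0})),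
        (⟨p, hp0⟩ : {p : MvPolynomial κ K // p ≠ 0}) ∈ S := by
      filter_upwards [eventually_ge_atTop {(⟨p, hp0⟩ : {p : MvPolynomial κ K // p ≠ 0})}] with S hS
      exact hS (Finset.mem_singleton_self _)
    exact Ultrafilter.of_le _ h2
  obtain ⟨S, hS1, hS2⟩ := (hp.and h1).exists
  exact ha2 S _ hS2 hS1

end Pool.Agent.W966.Vf
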