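import Pool.Agent.W966.Vf.Sys
import Pool.Agent.W966.Vf.Ultra
import Pool.Agent.W966.Vf.Path
import Pool.Agent.W966.Mm.Agree

/-!
# Algorithms with unlimited unreliable hints
-/

set_option autoImplicit false

namespace Pool.Agent.W966.Vf

open MvPolynomial Module Filter Pool.Agent.W966.Mm

/-- A linear combination as an affine form. -/
def toAF {K : Type} {n : ℕ} (Q N' : ℕ) (f : Lin K n) : AF K (Ent n ⊕ Fin Q ⊕ Fin N') :=
  (f.c, Sum.elim (Sum.elim (fun p => f.a p.1 p.2) (fun p => f.b p.1 p.2))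
    (Sum.elim (fun t => f.r t) (fun s => f.r (Q + s))))

lemma toAF_val {K : Type} [Field K] {n : ℕ} (Q N' : ℕ) (f : Lin K n)
    (A B : Matrix (Fin n) (Fin n) K) (g : ℕ → K) :
    (toAF Q N' f).val (pnt (entries A B) (fun t : Fin Q => g t) (fun s : Fin N' => g (Q + s))) =
      f.val A B (Q + N') g := by
  unfold AF.val toAF Lin.val pnt entries
  simp only [Algebra.algebraMap_self, RingHom.id_apply, Fintype.sum_sum_type, Sum.elim_inl,
    Sum.elim_inr, Fintype.sum_prod_type, Finset.sum_add_distrib]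
  rw [Finset.sum_range_add, Finset.sum_range, Finset.sum_range]
  ring

section

variable {K : Type} [Field K] {I : Type} {𝒰 : Ultrafilter I}

lemma los_val {N : Type} [Fintype N] (f : AF K N) (w : N → I → K) :
    f.val (fun s => cu 𝒰 (w s)) = cu 𝒰 (fun S => f.val (fun s => w s S)) := by
  have h1 := AF.map_val (K := K) (cu (K := K) 𝒰) (fun c => rfl) f w
  rw [← h1]
  congr 1
  funext S
  exact AF.map_val (K := K) (Pi.evalRingHom (fun _ : I => K) S) (fun c => rfl) f w

/-- Pigeonhole for an ultrafilter. -/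
lemma ultra_const {α : Type} (s : Set α) (hs : s.Finite) (P : I → α → Prop)
    (h : ∀ᶠ S in (𝒰 : Filter I), ∃ x ∈ s, P S x) :
    ∃ x ∈ s, ∀ᶠ S in (𝒰 : Filter I), P S x := by
  have h1 : (⋃ x ∈ s, {S | P S x}) ∈ 𝒰 := by
    filter_upwards [h] with S hS
    obtain ⟨x, hx, hP⟩ := hS
    exact Set.mem_biUnion hx hP
  exact (Ultrafilter.finite_biUnion_mem_iff hs).mp h1

end

/-- The pairs of matrices with the property `D` are Zariski dense. -/
def DenseFor {K : Type} [Field K] {n : ℕ}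
    (D : Matrix (Fin n) (Fin n) K → Matrix (Fin n) (Fin n) K → Prop) : Prop :=
  ∀ p : MvPolynomial (Ent n) K, p ≠ 0 → ∃ A B, eval (entries A B) p ≠ 0 ∧ D A B

/-- The matrices which the algorithm can output on the input `A, B` with the advice
`a 0, …, a (Q - 1)`: for some outcomes of its random choices and some answers to its queries,
of which there may be any number, it makes at most `L` multiplications and divisions, no division
by `0`, and outputs the matrix. -/
def Outputs {K : Type} [Field K] {n : ℕ} (t : QTree K n) (A B : Matrix (Fin n) (Fin n) K) (Q : ℕ)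
    (a : ℕ → K) (L : ℕ) : Set (Matrix (Fin n) (Fin n) K) :=
  {C | ∃ G, t.CanOutput A B (fun C' => C' = C) Q a L G}

/-- **The general bound.** -/
theorem gen_bound {K : Type} [Field K] [IsAlgClosed K] [CharZero K] {n m L Q K₀ M : ℕ}
    (t : QTree K n)
    (H : DenseFor fun A B : Matrix (Fin n) (Fin n) K => ∃ (a : ℕ → K)
      (𝒞 : Fin M → Matrix (Fin n) (Fin n) K), (∀ C ∈ Outputs t A B Q a L, ∃ i, AgreeIn K₀ C (𝒞 i)) ∧
      ∃ C₀ ∈ Outputs t A B Q a L, ∀ i, ∀ S : Finset (Fin n × Fin n), K₀ ≤ S.card →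
        (∀ v ∈ S, C₀ v.1 v.2 = 𝒞 i v.1 v.2) → ∀ v ∈ S, 𝒞 i v.1 v.2 = (A * B) v.1 v.2)
    (hm0 : 0 < m) (hm : m ≤ n) (hdim : Q + n ^ 2 < (n - m + 1) ^ 2 + K₀) :
    (m : ℝ) ^ Pool.Agent.H515R2.MMR.omega ≤ 2 * L := by
  classical
  obtain ⟨I, 𝒰, y, hy, hindep⟩ := exists_generic_dense (K := K) (κ := Ent n)
    (fun y => ∃ (a : ℕ → K) (𝒞 : Fin M → Matrix (Fin n) (Fin n) K),
      (∀ C ∈ Outputs t (Matrix.of fun i j => y (Sum.inl (i, j)))
        (Matrix.of fun i j => y (Sum.inr (i, j))) Q a L, ∃ i, AgreeIn K₀ C (𝒞 i)) ∧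
      ∃ C₀ ∈ Outputs t (Matrix.of fun i j => y (Sum.inl (i, j)))
        (Matrix.of fun i j => y (Sum.inr (i, j))) Q a L, ∀ i, ∀ S : Finset (Fin n × Fin n),
        K₀ ≤ S.card → (∀ v ∈ S, C₀ v.1 v.2 = 𝒞 i v.1 v.2) → ∀ v ∈ S, 𝒞 i v.1 v.2 =
          ((Matrix.of fun i j => y (Sum.inl (i, j))) *
            (Matrix.of fun i j => y (Sum.inr (i, j)) : Matrix (Fin n) (Fin n) K) :
              Matrix (Fin n) (Fin n) K) v.1 v.2)
    (by
      intro p hp
      obtain ⟨A, B, h1, h2⟩ := H p hp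
      exact ⟨entries A B, h1, h2⟩)
  set A : I → Matrix (Fin n) (Fin n) K := fun S => Matrix.of fun i j => y S (Sum.inl (i, j))
    with hA
  set B : I → Matrix (Fin n) (Fin n) K := fun S => Matrix.of fun i j => y S (Sum.inr (i, j))
    with hB
  have hent : ∀ S, entries (A S) (B S) = y S := by
    intro S
    funext e
    rcases e with e | e <;> rfl
  choose a 𝒞 hall C₀ hC₀ hid using hy
  have hpath : ∀ S, ∃ p ∈ paths t, p.muls ≤ L ∧ ∃ g' : ℕ → K, (∀ s < Q, g' s = a S s) ∧
      p.Ok (A S) (B S) g' Q ∧ p.outM (A S) (B S) g' Q = C₀ S := by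
    intro S
    obtain ⟨G, hG⟩ := hC₀ S
    exact path_of_can (A S) (B S) _ t Q (a S) L G hG
  obtain ⟨p, hp, hpS⟩ := ultra_const (𝒰 := 𝒰) (paths t) (paths_finite t)
    (fun S p => p.muls ≤ L ∧ ∃ g' : ℕ → K, (∀ s < Q, g' s = a S s) ∧
      p.Ok (A S) (B S) g' Q ∧ p.outM (A S) (B S) g' Q = C₀ S) (Eventually.of_forall hpath)
  have hmuls : p.muls ≤ L := by
    obtain ⟨S, hS⟩ := hpS.exists
    exact hS.1
  -- the registers
  have hg : ∀ S, ∃ g' : ℕ → K, (p.muls ≤ L ∧ ∃ g' : ℕ → K, (∀ s < Q, g' s = a S s) ∧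
      p.Ok (A S) (B S) g' Q ∧ p.outM (A S) (B S) g' Q = C₀ S) → ((∀ s < Q, g' s = a S s) ∧
      p.Ok (A S) (B S) g' Q ∧ p.outM (A S) (B S) g' Q = C₀ S) := by
    intro S
    by_cases h : ∃ g' : ℕ → K, (∀ s < Q, g' s = a S s) ∧
      p.Ok (A S) (B S) g' Q ∧ p.outM (A S) (B S) g' Q = C₀ S
    · obtain ⟨g', hg'⟩ := h
      exact ⟨g', fun _ => hg'⟩
    · exact ⟨0, fun h' => absurd h'.2 h⟩
  choose g hg using hg
  have hgS : ∀ᶠ S in (𝒰 : Filter I), (∀ s < Q, g S s = a S s) ∧
      p.Ok (A S) (B S) (g S) Q ∧ p.outM (A S) (B S) (g S) Q = C₀ S :=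
    hpS.mono fun S hS => hg S hS
  obtain ⟨N', hN'⟩ : ∃ N', p.fin Q = Q + N' := Nat.exists_eq_add_of_le (p.le_fin Q)
  let x : Ent n → UP K 𝒰 := fun e => cu 𝒰 (fun S => y S e)
  let aF : Fin Q → UP K 𝒰 := fun t => cu 𝒰 (fun S => a S t)
  have hval : ∀ (gg : I → ℕ → K) (f : Lin K n),
      (∀ᶠ S in (𝒰 : Filter I), ∀ s < Q, gg S s = a S s) →
      (toAF Q N' f).val (pnt x aF (fun s : Fin N' => cu 𝒰 (fun S => gg S (Q + s)))) =
        cu 𝒰 (fun S => f.val (A S) (B S) (Q + N') (gg S)) := by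
    intro gg f hgg
    have e1 : aF = fun t : Fin Q => cu 𝒰 (fun S => gg S t) := by
      funext t
      refine cu_eq.mpr ?_
      filter_upwards [hgg] with S hS
      exact (hS t t.2).symm
    have e2 : pnt x aF (fun s : Fin N' => cu 𝒰 (fun S => gg S (Q + s))) =
        fun i => cu 𝒰 (fun S => pnt (entries (A S) (B S)) (fun t : Fin Q => gg S t)
          (fun s : Fin N' => gg S (Q + s)) i) := by
      rw [e1]
      funext i
      rcases i with i | i | i
      · show cu 𝒰 (fun S => y S i) = cu 𝒰 (fun S => entries (A S) (B S) i)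
        simp only [hent]
      · rfl
      · rfl
    rw [e2, los_val (𝒰 := 𝒰) (toAF Q N' f)
      (fun i S => pnt (entries (A S) (B S)) (fun t : Fin Q => gg S t)
          (fun s : Fin N' => gg S (Q + s)) i)]
    congr 1
    funext S
    exact toAF_val Q N' f (A S) (B S) (gg S)
  let α : Fin (p.msys Q).length → AF K (Ent n ⊕ Fin Q ⊕ Fin N') :=
    fun j => toAF Q N' ((p.msys Q).get j).1
  let β : Fin (p.msys Q).length → AF K (Ent n ⊕ Fin Q ⊕ Fin N') :=
    fun j => toAF Q N' ((p.msys Q).get j).2.1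
  let δ : Fin (p.msys Q).length → AF K (Ent n ⊕ Fin Q ⊕ Fin N') :=
    fun j => toAF Q N' ((p.msys Q).get j).2.2
  let lin : Fin (p.lsys Q).length → AF K (Ent n ⊕ Fin Q ⊕ Fin N') :=
    fun j => toAF Q N' ((p.lsys Q).get j)
  let ne : Fin (p.nsys Q).length → AF K (Ent n ⊕ Fin Q ⊕ Fin N') :=
    fun j => toAF Q N' ((p.nsys Q).get j)
  have hlist : ∀ {α : Type} (l : List α) (P : α → Prop),
      (∀ x ∈ l, P x) ↔ ∀ j : Fin l.length, P (l.get j) := by
    intro α l P
    refine ⟨fun h j => h _ (List.get_mem l j), fun h x hx => ?_⟩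
    obtain ⟨j, hj⟩ := List.get_of_mem hx
    rw [← hj]
    exact h j
  have hsat : ∀ (gg : I → ℕ → K), (∀ᶠ S in (𝒰 : Filter I), ∀ s < Q, gg S s = a S s) →
      (Sat α β δ lin ne (pnt x aF (fun s : Fin N' => cu 𝒰 (fun S => gg S (Q + s)))) ↔
        ∀ᶠ S in (𝒰 : Filter I), p.Ok (A S) (B S) (gg S) Q) := by
    intro gg hgg
    have e1 : ∀ S, p.Ok (A S) (B S) (gg S) Q ↔
        (∀ j : Fin (p.msys Q).length, ((p.msys Q).get j).1.val (A S) (B S) (Q + N') (gg S) *
          ((p.msys Q).get j).2.1.val (A S) (B S) (Q + N') (gg S) =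
          ((p.msys Q).get j).2.2.val (A S) (B S) (Q + N') (gg S)) ∧
        (∀ j : Fin (p.lsys Q).length,
          ((p.lsys Q).get j).val (A S) (B S) (Q + N') (gg S) = 0) ∧
        (∀ j : Fin (p.nsys Q).length,
          ((p.nsys Q).get j).val (A S) (B S) (Q + N') (gg S) ≠ 0) := by
      intro S
      rw [Path.ok_iff (A S) (B S) (gg S) p Q (Q + N') hN'.le, hlist, hlist, hlist]
    simp only [e1, Filter.eventually_and, Filter.eventually_all]
    constructor
    · intro h
      refine ⟨fun j => ?_, fun j => ?_, fun j => ?_⟩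
      · have := h.mul j
        simp only [α, β, δ, hval gg _ hgg, ← map_mul] at this
        exact cu_eq.mp this
      · have := h.lin j
        simp only [lin, hval gg _ hgg] at this
        exact cu_eq_zero.mp this
      · have := h.ne j
        simp only [ne, hval gg _ hgg] at this
        exact cu_ne_zero.mp this
    · rintro ⟨h1, h2, h3⟩
      refine ⟨fun j => ?_, fun j => ?_, fun j => ?_⟩
      · simp only [α, β, δ, hval gg _ hgg, ← map_mul]
        exact cu_eq.mpr (h1 j)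
      · simp only [lin, hval gg _ hgg]
        exact cu_eq_zero.mpr (h2 j)
      · simp only [ne, hval gg _ hgg]
        exact cu_ne_zero.mpr (h3 j)
  have hgg0 : ∀ᶠ S in (𝒰 : Filter I), ∀ s < Q, g S s = a S s := hgS.mono fun S hS => hS.1
  let 𝒞F : Fin M → Fin n × Fin n → UP K 𝒰 := fun i v => cu 𝒰 (fun S => 𝒞 S i v.1 v.2)
  have key := main_F (K := K) (F := UP K 𝒰) (K₀ := K₀) α β δ lin ne
    (fun v => toAF Q N' (p.out v.1 v.2)) x hindep aF
    (fun s : Fin N' => cu 𝒰 (fun S => g S (Q + s)))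
    ((hsat g hgg0).mpr (hgS.mono fun S hS => hS.2.1)) 𝒞F
    (by
      intro s hs
      choose r hr using cu_surj (K := K) (𝒰 := 𝒰)
      let gg : I → ℕ → K := fun S t => if t < Q then a S t else
        if h : t - Q < N' then r (s ⟨t - Q, h⟩) S else 0
      have hgg : ∀ S, ∀ t < Q, gg S t = a S t := fun S t ht => if_pos ht
      have hgg' : ∀ S, ∀ t : Fin N', gg S (Q + t) = r (s t) S := by
        intro S t
        have h1 : ¬ (Q + (t : ℕ) < Q) := by omega
        have h2 : Q + (t : ℕ) - Q < N' := by omega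
        simp only [gg, if_neg h1, dif_pos h2]
        congr 2
        ext
        show Q + (t : ℕ) - Q = t
        omega
      have hs' : s = fun t : Fin N' => cu 𝒰 (fun S => gg S (Q + t)) := by
        funext t
        simp only [hgg']
        exact (hr (s t)).symm
      rw [hs'] at hs
      have h1 := (hsat gg (Eventually.of_forall hgg)).mp hs
      have h2 : ∀ᶠ S in (𝒰 : Filter I), ∃ z ∈ (Set.univ : Set (Fin M × Finset (Fin n × Fin n))),
          K₀ ≤ z.2.card ∧ ∀ v ∈ z.2, (p.out v.1 v.2).val (A S) (B S) (Q + N') (gg S) =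
            𝒞 S z.1 v.1 v.2 := by
        filter_upwards [h1] with S hS
        obtain ⟨G, hG⟩ := can_of_path (A S) (B S)
          (fun C' => C' = p.outM (A S) (B S) (gg S) Q) t Q (a S) L p hp hmuls (gg S) (hgg S)
          hS rfl
        obtain ⟨i, hi⟩ := hall S _ ⟨G, hG⟩
        refine ⟨(i, Finset.univ.filter fun v : Fin n × Fin n =>
          p.outM (A S) (B S) (gg S) Q v.1 v.2 = 𝒞 S i v.1 v.2), Set.mem_univ _, ?_, ?_⟩
        · unfold AgreeIn at hi
          convert hi
        · intro v hv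
          have h3 := (Finset.mem_filter.mp hv).2
          rw [← h3]
          show _ = (p.out v.1 v.2).val (A S) (B S) (p.fin Q) (gg S)
          rw [hN']
      obtain ⟨z, -, hz⟩ := ultra_const (𝒰 := 𝒰) Set.univ Set.finite_univ _ h2
      refine ⟨z.1, z.2, ?_, fun v hv => ?_⟩
      · obtain ⟨S, hS⟩ := hz.exists
        exact hS.1
      · rw [hs']
        rw [hval gg _ (Eventually.of_forall hgg)]
        refine cu_eq.mpr ?_
        filter_upwards [hz] with S hS
        exact hS.2 v hv)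
    (by
      intro i T hT hv v hvT
      have h1 : ∀ᶠ S in (𝒰 : Filter I), ∀ v ∈ T, C₀ S v.1 v.2 = 𝒞 S i v.1 v.2 := by
        have h2 : ∀ v ∈ T, ∀ᶠ S in (𝒰 : Filter I),
            (p.out v.1 v.2).val (A S) (B S) (Q + N') (g S) = 𝒞 S i v.1 v.2 := by
          intro v hv'
          have := hv v hv'
          rw [hval g _ hgg0] at this
          exact cu_eq.mp this
        have h3 := (Filter.eventually_all_finset T).mpr h2
        filter_upwards [h3, hgS] with S hS hS' v hv'
        rw [← hS v hv', ← hS'.2.2]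
        show (p.out v.1 v.2).val (A S) (B S) (p.fin Q) (g S) = _
        rw [hN']
      have h2 : (fun S => 𝒞 S i v.1 v.2) =ᶠ[(𝒰 : Filter I)]
          fun S => (A S * B S) v.1 v.2 := by
        filter_upwards [h1] with S hS
        exact hid S i T hT hS v hvT
      have h3 : 𝒞F i v = cu 𝒰 (fun S => (A S * B S) v.1 v.2) := cu_eq.mpr h2
      rw [h3]
      have h4 : (fun S => (A S * B S) v.1 v.2) =
          ∑ k, (fun S => y S (Sum.inl (v.1, k))) * (fun S => y S (Sum.inr (k, v.2))) := by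
        funext S
        rw [Matrix.mul_apply, Finset.sum_apply]
        rfl
      rw [h4, map_sum]
      exact Finset.sum_congr rfl fun k _ => map_mul _ _ _)
    hm0 hm hdim
  refine key.trans ?_
  rw [p.msys_length]
  have : (p.muls : ℝ) ≤ L := by exact_mod_cast hmuls
  linarith

end Pool.Agent.W966.Vf
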