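import Pool.Agent.W966.Vf.Stms

/-!
# Heights of the ideal of the origin

After `Pool.Agent.W637.VF.HT` (helper637), with sets instead of finite sets.
-/

set_option autoImplicit false

namespace Pool.Agent.W966.Vf

open MvPolynomial

section

variable {ρ S : Type} [CommRing S]

open Classical in
/-- Put the variables of `A` to zero. -/
noncomputable def klS (A : Set ρ) : MvPolynomial ρ S →ₐ[S] MvPolynomial ρ S :=
  aeval fun v => if v ∈ A then 0 else X v

lemma klS_insert (A : Set ρ) (v : ρ) (p : MvPolynomial ρ S) :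
    klS (insert v A) p = klS {v} (klS A p) := by
  classical
  have h : (klS (insert v A) : MvPolynomial ρ S →ₐ[S] MvPolynomial ρ S) =
      (klS {v}).comp (klS A) := by
    apply MvPolynomial.algHom_ext
    intro u
    simp only [klS, aeval_X, AlgHom.comp_apply, Set.mem_insert_iff]
    by_cases hu : u ∈ A
    · rw [if_pos (Or.inr hu), if_pos hu, map_zero]
    · by_cases huv : u = v
      · rw [if_pos (Or.inl huv), if_neg hu, aeval_X, if_pos (by rw [huv]; rfl)]
      · rw [if_neg (fun h => h.elim huv hu), if_neg hu, aeval_X,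
          if_neg (fun h => huv (Set.mem_singleton_iff.mp h))]
  rw [h]
  rfl

/-- The prime generated by the variables of `A`. -/
noncomputable def prS (ρ S : Type) [CommRing S] (A : Set ρ) : Ideal (MvPolynomial ρ S) :=
  RingHom.ker (klS A : MvPolynomial ρ S →ₐ[S] MvPolynomial ρ S)

lemma mem_prS {A : Set ρ} {p : MvPolynomial ρ S} : p ∈ prS ρ S A ↔ klS A p = 0 := RingHom.mem_ker

lemma prS_prime [IsDomain S] (A : Set ρ) : (prS ρ S A).IsPrime := RingHom.ker_isPrime _

lemma prS_insert [Nontrivial S] (A : Set ρ) (v : ρ) (hv : v ∉ A) :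
    prS ρ S A < prS ρ S (insert v A) := by
  classical
  refine lt_of_le_of_ne ?_ ?_
  · intro p hp
    rw [mem_prS] at hp ⊢
    rw [klS_insert, hp, map_zero]
  · intro h
    have h1 : (X v : MvPolynomial ρ S) ∈ prS ρ S (insert v A) := by
      rw [mem_prS, klS, aeval_X, if_pos (Set.mem_insert v A)]
    rw [← h, mem_prS, klS, aeval_X, if_neg hv] at h1
    exact MvPolynomial.X_ne_zero v h1

lemma card_le_heightS [IsDomain S] (A : Finset ρ) :
    (A.card : ℕ∞) ≤ (prS ρ S (A : Set ρ)).height := by
  classical
  induction A using Finset.induction_on with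
  | empty => rw [Finset.card_empty, Nat.cast_zero]; exact bot_le
  | insert v A hv ih =>
    have hp := prS_prime (S := S) (A : Set ρ)
    have hp' := prS_prime (S := S) (insert v (A : Set ρ))
    have h := Ideal.height_add_one_le_of_lt_of_isPrime
      (prS_insert (S := S) (A : Set ρ) v (fun h => hv (Finset.mem_coe.mp h)))
    rw [Finset.card_insert_of_notMem hv, Finset.coe_insert]
    refine le_trans ?_ h
    rw [Nat.cast_add, Nat.cast_one]
    exact add_le_add_left ih 1

lemma prS_univ : prS ρ S (Set.univ : Set ρ) = orig ρ S := by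
  classical
  ext p
  rw [mem_prS, orig, RingHom.mem_ker]
  have h : klS (Set.univ : Set ρ) p = C (MvPolynomial.eval (fun _ : ρ => (0 : S)) p) := by
    have h2 : (klS (Set.univ : Set ρ) : MvPolynomial ρ S →ₐ[S] MvPolynomial ρ S) =
        (Algebra.ofId S (MvPolynomial ρ S)).comp (aeval fun _ : ρ => (0 : S)) := by
      apply MvPolynomial.algHom_ext
      intro u
      rw [klS, aeval_X, if_pos (Set.mem_univ u), AlgHom.comp_apply, aeval_X, map_zero]
    rw [h2, AlgHom.comp_apply, Algebra.ofId_apply, MvPolynomial.algebraMap_eq,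
      MvPolynomial.aeval_eq_eval]
  rw [h]
  constructor
  · intro h0
    exact MvPolynomial.C_injective ρ S (by rw [h0, map_zero])
  · intro h0
    rw [h0, map_zero]

end

theorem ht1 : S_HT1 := by
  intro ρ S _ _ _
  have h := card_le_heightS (S := S) (Finset.univ : Finset ρ)
  rw [Finset.coe_univ, prS_univ, Finset.card_univ] at h
  exact h

theorem ht2 : S_HT2 := by
  intro ρ Ω _ _
  have hlt : orig ρ (PowerSeries Ω) < orig' ρ Ω := by
    refine lt_of_le_of_ne ?_ ?_
    · intro p hp
      rw [orig, RingHom.mem_ker] at hp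
      rw [orig', RingHom.mem_ker, RingHom.comp_apply, hp, map_zero]
    · intro h
      have h1 : (C (PowerSeries.X : PowerSeries Ω) : MvPolynomial ρ (PowerSeries Ω)) ∈
          orig' ρ Ω := by
        rw [orig', RingHom.mem_ker, RingHom.comp_apply, MvPolynomial.eval_C,
          PowerSeries.constantCoeff_X]
      rw [← h, orig, RingHom.mem_ker, MvPolynomial.eval_C] at h1
      exact PowerSeries.X_ne_zero h1
  have h3 : (orig ρ (PowerSeries Ω)).IsPrime := RingHom.ker_isPrime _
  have h4 : (orig' ρ Ω).IsPrime := RingHom.ker_isPrime _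
  have h := Ideal.height_add_one_le_of_lt_of_isPrime hlt
  refine le_trans ?_ h
  rw [Nat.cast_add, Nat.cast_one]
  exact add_le_add_left (ht1 ρ (PowerSeries Ω)) 1

end Pool.Agent.W966.Vf
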