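import Pool.Agent.W966.Vf.StageB

/-!
# From an isolated component to the exponent
-/

set_option autoImplicit false

namespace Pool.Agent.W966.Vf

open MvPolynomial Module Pool.Agent.W966.Mm

lemma exists_big (Ω₁ ρ : Type) [Field Ω₁] : ∃ (Ω : Type) (_ : Field Ω) (_ : IsAlgClosed Ω)
    (_ : Algebra Ω₁ Ω) (γ : ρ → Ω), AlgebraicIndependent Ω₁ γ := by
  refine ⟨AlgebraicClosure (FractionRing (MvPolynomial ρ Ω₁)), inferInstance, inferInstance,
    inferInstance, fun b => algebraMap (FractionRing (MvPolynomial ρ Ω₁)) _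
      (algebraMap (MvPolynomial ρ Ω₁) (FractionRing (MvPolynomial ρ Ω₁)) (X b)), ?_⟩
  have h1 := MvPolynomial.algebraicIndependent_X ρ Ω₁
  have h2 := h1.map' (f := IsScalarTower.toAlgHom Ω₁ (MvPolynomial ρ Ω₁)
    (FractionRing (MvPolynomial ρ Ω₁))) (IsFractionRing.injective _ _)
  exact h2.map' (f := IsScalarTower.toAlgHom Ω₁ (FractionRing (MvPolynomial ρ Ω₁))
    (AlgebraicClosure (FractionRing (MvPolynomial ρ Ω₁))))
    (algebraMap (FractionRing (MvPolynomial ρ Ω₁)) _).injective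

lemma AF.map_val {K N S S' : Type} [CommRing K] [CommRing S] [Algebra K S] [CommRing S']
    [Algebra K S'] [Fintype N] (φ : S →+* S')
    (hφ : ∀ c : K, φ (algebraMap K S c) = algebraMap K S' c) (f : AF K N) (w : N → S) :
    φ (f.val w) = f.val (fun s => φ (w s)) := by
  simp only [AF.val, map_add, map_sum, map_mul, hφ]

/-- The polynomial of an affine form in the last variables. -/
noncomputable def polF {K F ι κ σ : Type} [Field K] [Field F] [Algebra K F] [Fintype ι] [Fintype κ]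
    [Fintype σ] (x : ι → F) (a : κ → F) (f : AF K (ι ⊕ κ ⊕ σ)) : MvPolynomial σ F :=
  f.val (Sum.elim (fun i => C (x i)) (Sum.elim (fun t => C (a t)) X))

open Classical in
/-- The shift to a point. -/
noncomputable def shiftF {F Ω₁ σ : Type} [Field F] [Field Ω₁] [Algebra F Ω₁] (T : Set σ)
    (w₀ : σ → Ω₁) : MvPolynomial σ F →ₐ[F] MvPolynomial ↥(Tᶜ) Ω₁ :=
  MvPolynomial.aeval (fun c : σ => (C (w₀ c) + if h : c ∈ Tᶜ then X (⟨c, h⟩ : ↥(Tᶜ)) else 0 :
    MvPolynomial ↥(Tᶜ) Ω₁))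

/-- **Stage A**. -/
theorem stageA (hAV : S_AV) (hCU : S_CURVE) (hID : S_IDENT) (hLIM : S_LIM) (hBLK : S_BLK)
    (hAD : S_AD) {K F Ω₁ : Type} [Field K] [CharZero K] [Field F] [Algebra K F] [Field Ω₁]
    [Algebra F Ω₁] {n m Q N' L K₀ : ℕ} {J₂ : Type} [Fintype J₂]
    (x : Ent n → F) (a : Fin Q → F) (T : Set (Fin N')) (w₀ : Fin N' → Ω₁)
    (α β δ : Fin L ⊕ J₂ → AF K (Ent n ⊕ Fin Q ⊕ Fin N')) (hα : ∀ j, α (Sum.inr j) = 0)
    (hx : AlgebraicIndependent K x) (hT : AlgebraicIndependent F (fun s : T => w₀ s))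
    (hiso : IsolatedAt (ρ := ↥(Tᶜ)) fun j =>
      shiftF T w₀ (polF x a (α j) * polF x a (β j) - polF x a (δ j)))
    (o : Fin n × Fin n → AF K (Ent n ⊕ Fin Q ⊕ Fin N')) (S : Finset (Fin n × Fin n))
    (hS : K₀ ≤ S.card)
    (ho : ∀ v ∈ S, aeval w₀ (polF x a (o v)) =
      algebraMap F Ω₁ (∑ k, x (Sum.inl (v.1, k)) * x (Sum.inr (k, v.2))))
    (hm0 : 0 < m) (hm : m ≤ n) (hdim : Q + n ^ 2 < (n - m + 1) ^ 2 + K₀) :
    (m : ℝ) ^ Pool.Agent.H515R2.MMR.omega ≤ 2 * L := by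
  classical
  let _ : Algebra K Ω₁ := ((algebraMap F Ω₁).comp (algebraMap K F)).toAlgebra
  have hKF : ∀ c : K, algebraMap K Ω₁ c = algebraMap F Ω₁ (algebraMap K F c) := fun _ => rfl
  have : Infinite K := CharZero.infinite K
  have : Fintype ↥(Tᶜ) := Fintype.ofFinite _
  obtain ⟨c, hc⟩ := hAV K Ω₁ ↥(Tᶜ) (Fin L ⊕ J₂) _ hiso
  obtain ⟨Ω, _, _, _, γ, hγ⟩ := exists_big Ω₁ ↥(Tᶜ)
  have : CharZero Ω₁ := charZero_of_injective_algebraMap (algebraMap K Ω₁).injective
  have : CharZero Ω := charZero_of_injective_algebraMap (algebraMap Ω₁ Ω).injective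
  obtain ⟨e, g, he, hg, hFg⟩ := hCU Ω₁ Ω ↥(Tᶜ) _ γ hc
  let _ : Algebra F Ω := ((algebraMap Ω₁ Ω).comp (algebraMap F Ω₁)).toAlgebra
  let _ : Algebra K Ω := ((algebraMap Ω₁ Ω).comp (algebraMap K Ω₁)).toAlgebra
  have hFΩ : ∀ c : F, algebraMap F Ω c = algebraMap Ω₁ Ω (algebraMap F Ω₁ c) := fun _ => rfl
  have hKΩ : ∀ c : K, algebraMap K Ω c = algebraMap Ω₁ Ω (algebraMap K Ω₁ c) := fun _ => rfl
  have : IsScalarTower K F Ω := IsScalarTower.of_algebraMap_eq fun _ => rfl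
  have : IsScalarTower F Ω₁ Ω := IsScalarTower.of_algebraMap_eq fun _ => rfl
  let ev : MvPolynomial ↥(Tᶜ) Ω₁ →+* PowerSeries Ω :=
    eval₂Hom (PowerSeries.C.comp (algebraMap Ω₁ Ω)) g
  let ψ : MvPolynomial (Fin N') F →+* PowerSeries Ω := ev.comp (shiftF T w₀).toRingHom
  have hψC : ∀ c : F, ψ (C c) = PowerSeries.C (algebraMap F Ω c) := by
    intro c
    show ev (shiftF T w₀ (C c)) = _
    rw [shiftF, aeval_C]
    have : (algebraMap F (MvPolynomial ↥(Tᶜ) Ω₁)) c = C (algebraMap F Ω₁ c) := rfl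
    rw [this]
    show eval₂ _ _ _ = _
    rw [eval₂_C]
    rfl
  have hψX : ∀ s, ψ (X s) = PowerSeries.C (algebraMap Ω₁ Ω (w₀ s)) +
      if h : s ∈ Tᶜ then g ⟨s, h⟩ else 0 := by
    intro s
    show ev (shiftF T w₀ (X s)) = _
    rw [shiftF, aeval_X, map_add]
    congr 1
    · show eval₂ _ _ _ = _
      rw [eval₂_C]
      rfl
    · by_cases h : s ∈ Tᶜ
      · rw [dif_pos h, dif_pos h]
        show eval₂ _ _ _ = _
        rw [eval₂_X]
      · rw [dif_neg h, dif_neg h, map_zero]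
  have hψK : ∀ c : K, ψ (algebraMap K (MvPolynomial (Fin N') F) c) =
      algebraMap K (PowerSeries Ω) c := by
    intro c
    have h1 : algebraMap K (MvPolynomial (Fin N') F) c = C (algebraMap K F c) := rfl
    have h2 : algebraMap K (PowerSeries Ω) c = PowerSeries.C (algebraMap K Ω c) :=
      PowerSeries.algebraMap_apply
    rw [h1, h2, hψC]
    rfl
  have hψ : ∀ f : AF K (Ent n ⊕ Fin Q ⊕ Fin N'), ψ (polF x a f) =
      f.val (pt x a T (fun s => algebraMap Ω₁ Ω (w₀ s)) g) := by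
    intro f
    rw [polF, AF.map_val ψ hψK]
    congr 1
    funext s
    rcases s with i | t | s
    · exact hψC _
    · exact hψC _
    · show ψ (X s) = _
      rw [hψX]
      rfl
  have hχ : ∀ p : MvPolynomial (Fin N') F, PowerSeries.constantCoeff (ψ p) =
      algebraMap Ω₁ Ω (aeval w₀ p) := by
    have h : (PowerSeries.constantCoeff (R := Ω)).comp ψ =
        (algebraMap Ω₁ Ω).comp (aeval w₀ : MvPolynomial (Fin N') F →ₐ[F] Ω₁).toRingHom := by
      refine MvPolynomial.ringHom_ext ?_ ?_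
      · intro c
        rw [RingHom.comp_apply, hψC, PowerSeries.constantCoeff_C]
        show _ = algebraMap Ω₁ Ω (aeval w₀ (C c))
        rw [aeval_C]
        rfl
      · intro s
        rw [RingHom.comp_apply, hψX, map_add, PowerSeries.constantCoeff_C]
        show _ = algebraMap Ω₁ Ω (aeval w₀ (X s))
        rw [aeval_X]
        by_cases h : s ∈ Tᶜ
        · rw [dif_pos h, hg, add_zero]
        · rw [dif_neg h, map_zero, add_zero]
    exact fun p => congrArg (fun f => f p) h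
  have hAI : AlgebraicIndependent F (Sum.elim (fun s : T => algebraMap Ω₁ Ω (w₀ s)) γ) := by
    have h1 := AlgebraicIndependent.sumElim_comp (A := Ω) hT hγ
    have h2 := h1.comp (Equiv.sumComm _ _) (Equiv.injective _)
    convert h2 using 1
    funext s
    rcases s with s | s <;> rfl
  refine stageB hID hLIM hBLK hAD (K := K) (F := F) (Ω := Ω) x a T
    (fun s => algebraMap Ω₁ Ω (w₀ s)) g γ e α β δ hα c hx hAI hg ?_ o S hS ?_ hm0 hm hdim
  · intro b
    rw [← hFg b]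
    show _ = ev _
    rw [map_sum]
    refine Finset.sum_congr rfl fun j _ => ?_
    rw [map_mul]
    congr 1
    · show _ = eval₂ _ _ _
      rw [eval₂_C, PowerSeries.algebraMap_apply]
      rfl
    · show _ = ψ (polF x a (α j) * polF x a (β j) - polF x a (δ j))
      rw [map_sub, map_mul, hψ, hψ, hψ]
  · intro v hv
    rw [← hψ, hχ, ho v hv]
    rfl

end Pool.Agent.W966.Vf
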