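import Pool.Agent.W966.Vf.StageC

/-!
# From a power series solution to the exponent
-/

set_option autoImplicit false

namespace Pool.Agent.W966.Vf

open MvPolynomial Module Pool.Agent.W966.Mm

/-- The entry `v` of the product of two generic matrices. -/
noncomputable def prodE (K : Type) [Field K] {n : ℕ} (v : Fin n × Fin n) :
    MvPolynomial (Ent n) K :=
  ∑ k, X (Sum.inl (v.1, k)) * X (Sum.inr (k, v.2))

lemma aeval_prodE {K F : Type} [Field K] [Field F] [Algebra K F] {n : ℕ} (x : Ent n → F)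
    (v : Fin n × Fin n) :
    aeval x (prodE K v) = ∑ k, x (Sum.inl (v.1, k)) * x (Sum.inr (k, v.2)) := by
  simp [prodE]

lemma pderiv_prodE {K F : Type} [Field K] [Field F] [Algebra K F] {n : ℕ} (x : Ent n → F)
    (v : Fin n × Fin n) (a b c d : Fin n) :
    aeval x (pderiv (Sum.inl (a, b)) (pderiv (Sum.inr (c, d)) (prodE K v))) =
      if b = c ∧ v = (a, d) then 1 else 0 := by
  classical
  have h1 : pderiv (Sum.inr (c, d)) (prodE K v) =
      (if v.2 = d then X (Sum.inl (v.1, c)) else 0 : MvPolynomial (Ent n) K) := by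
    rw [prodE, map_sum]
    have h2 : ∀ k, pderiv (Sum.inr (c, d)) (X (Sum.inl (v.1, k)) * X (Sum.inr (k, v.2)) :
        MvPolynomial (Ent n) K) = if k = c ∧ v.2 = d then X (Sum.inl (v.1, k)) else 0 := by
      intro k
      rw [Derivation.leibniz, pderiv_X, pderiv_X]
      by_cases h : k = c ∧ v.2 = d
      · obtain ⟨rfl, h2⟩ := h
        subst h2
        simp
      · rw [if_neg h]
        have : ¬ ((Sum.inr (c, d) : Ent n) = Sum.inr (k, v.2)) := by
          rw [Sum.inr.injEq, Prod.mk.injEq]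
          exact fun h' => h ⟨h'.1.symm, h'.2.symm⟩
        simp [this]
    simp only [h2]
    by_cases h : v.2 = d
    · simp [h]
    · simp [h]
  rw [h1]
  by_cases h : v.2 = d
  · rw [if_pos h, pderiv_X]
    by_cases h3 : b = c ∧ v = (a, d)
    · obtain ⟨rfl, rfl⟩ := h3
      simp
    · rw [if_neg h3]
      have : ¬ ((Sum.inl (a, b) : Ent n) = Sum.inl (v.1, c)) := by
        rw [Sum.inl.injEq, Prod.mk.injEq]
        rintro ⟨h4, h5⟩
        exact h3 ⟨h5, by rw [h4, ← h]⟩
      simp [this]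
  · rw [if_neg h, map_zero, map_zero, if_neg]
    rintro ⟨-, h3⟩
    exact h (by rw [h3])

/-- **Stage B**. -/
theorem stageB (hID : S_IDENT) (hLIM : S_LIM) (hBLK : S_BLK) (hAD : S_AD)
    {K F Ω : Type} [Field K] [CharZero K] [Field F] [Algebra K F] [Field Ω] [Algebra F Ω]
    [Algebra K Ω] [IsScalarTower K F Ω] {n m Q N' L K₀ : ℕ} {J₂ : Type} [Fintype J₂]
    (x : Ent n → F) (a : Fin Q → F) (T : Set (Fin N')) (w₀ : Fin N' → Ω)
    (g : ↥(Tᶜ) → PowerSeries Ω) (γ : ↥(Tᶜ) → Ω) (e : ℕ)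
    (α β δ : Fin L ⊕ J₂ → AF K (Ent n ⊕ Fin Q ⊕ Fin N')) (hα : ∀ j, α (Sum.inr j) = 0)
    (c : ↥(Tᶜ) → Fin L ⊕ J₂ → K) (hx : AlgebraicIndependent K x)
    (hAI : AlgebraicIndependent F (Sum.elim (fun s : T => w₀ s) γ))
    (hg : ∀ v, PowerSeries.constantCoeff (g v) = 0)
    (heq : ∀ b, ∑ j, algebraMap K (PowerSeries Ω) (c b j) *
      ((α j).val (pt x a T w₀ g) * (β j).val (pt x a T w₀ g) - (δ j).val (pt x a T w₀ g)) =
        PowerSeries.C (γ b) * PowerSeries.X ^ e)
    (o : Fin n × Fin n → AF K (Ent n ⊕ Fin Q ⊕ Fin N')) (S : Finset (Fin n × Fin n))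
    (hS : K₀ ≤ S.card)
    (ho : ∀ v ∈ S, PowerSeries.constantCoeff ((o v).val (pt x a T w₀ g)) =
      algebraMap F Ω (∑ k, x (Sum.inl (v.1, k)) * x (Sum.inr (k, v.2))))
    (hm0 : 0 < m) (hm : m ≤ n) (hdim : Q + n ^ 2 < (n - m + 1) ^ 2 + K₀) :
    (m : ℝ) ^ Pool.Agent.H515R2.MMR.omega ≤ 2 * L := by
  classical
  have : CharZero Ω := charZero_of_injective_algebraMap (algebraMap K Ω).injective
  obtain ⟨p, q, H, lam, mu, E, hp, hid, hE⟩ := hID K F Ω (Ent n) (Fin Q) (Fin N')
    (Fin L ⊕ J₂) x a T w₀ g γ e α β δ c hx hAI hg heq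
  refine stageC hLIM hBLK hAD S hS e (fun j => p (Sum.inl j)) (fun j => q (Sum.inl j)) H
    (fun v j => ∑ s, algebraMap K (PowerSeries Ω) ((o v).2 s) * lam s (Sum.inl j))
    (fun v t => ∑ s, algebraMap K (PowerSeries Ω) ((o v).2 s) * mu s t)
    (fun v i i' => ∑ s, algebraMap K (PowerSeries Ω) ((o v).2 s) * E s i i') ?_ ?_ hm0 hm hdim
  · intro v i i'
    have e1 : PowerSeries.X ^ e * ∑ s, algebraMap K (PowerSeries Ω) ((o v).2 s) * E s i i' =
        ∑ s, algebraMap K (PowerSeries Ω) ((o v).2 s) * (PowerSeries.X ^ e * E s i i') := by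
      rw [Finset.mul_sum]
      exact Finset.sum_congr rfl fun s _ => by ring
    rw [e1]
    have e2 : ∀ s, algebraMap K (PowerSeries Ω) ((o v).2 s) * (PowerSeries.X ^ e * E s i i') =
        ∑ j, algebraMap K (PowerSeries Ω) ((o v).2 s) * lam s (Sum.inl j) *
          (p (Sum.inl j) i * q (Sum.inl j) i' + p (Sum.inl j) i' * q (Sum.inl j) i) +
        ∑ t, algebraMap K (PowerSeries Ω) ((o v).2 s) * mu s t * H t i i' := by
      intro s
      rw [hid, mul_add, Finset.mul_sum, Finset.mul_sum, Fintype.sum_sum_type]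
      have e3 : ∑ j : J₂, algebraMap K (PowerSeries Ω) ((o v).2 s) * (lam s (Sum.inr j) *
          (p (Sum.inr j) i * q (Sum.inr j) i' + p (Sum.inr j) i' * q (Sum.inr j) i)) = 0 := by
        refine Finset.sum_eq_zero fun j _ => ?_
        rw [hp _ (hα j), hp _ (hα j)]
        ring
      rw [e3, add_zero]
      congr 1
      · exact Finset.sum_congr rfl fun j _ => by ring
      · exact Finset.sum_congr rfl fun j _ => by ring
    simp only [e2, Finset.sum_add_distrib]
    congr 1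
    · rw [Finset.sum_comm]
      exact Finset.sum_congr rfl fun j _ => (Finset.sum_mul _ _ _).symm
    · rw [Finset.sum_comm]
      exact Finset.sum_congr rfl fun j _ => (Finset.sum_mul _ _ _).symm
  · intro v hv a' b' c' d'
    rw [hE (o v) (prodE K v) (by rw [aeval_prodE]; exact ho v hv), pderiv_prodE]
    split <;> simp

end Pool.Agent.W966.Vf
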