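import Pool.Agent.W966.Vf.Stms2
import Pool.Agent.W966.Mm.RankErr

/-!
# From the identity of second derivatives to the exponent
-/

set_option autoImplicit false

namespace Pool.Agent.W966.Vf

open MvPolynomial Module Pool.Agent.W966.Mm

lemma sum_rot {A D R M : Type} [Fintype A] [Fintype D] [Fintype R] [AddCommMonoid M]
    (f : A → D → R → M) : ∑ a, ∑ d, ∑ r, f a d r = ∑ r, ∑ a, ∑ d, f a d r := by
  have h : ∀ a, ∑ d, ∑ r, f a d r = ∑ r, ∑ d, f a d r := fun a => Finset.sum_comm
  simp only [h]
  exact Finset.sum_comm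

section

variable {Ω : Type} [Field Ω] [CharZero Ω] {n m L Q K₀ : ℕ}

/-- **Stage C**: linear algebra. -/
theorem stageC (hLIM : S_LIM) (hBLK : S_BLK) (hAD : S_AD) (S : Finset (Fin n × Fin n))
    (hS : K₀ ≤ S.card) (e : ℕ) (p q : Fin L → Ent n → PowerSeries Ω)
    (H : Fin Q → Ent n → Ent n → PowerSeries Ω) (lam : Fin n × Fin n → Fin L → PowerSeries Ω)
    (mu : Fin n × Fin n → Fin Q → PowerSeries Ω)
    (E : Fin n × Fin n → Ent n → Ent n → PowerSeries Ω)
    (hid : ∀ v i i', PowerSeries.X ^ e * E v i i' =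
      ∑ j, lam v j * (p j i * q j i' + p j i' * q j i) + ∑ t, mu v t * H t i i')
    (hE : ∀ v ∈ S, ∀ a b c d, PowerSeries.constantCoeff (E v (Sum.inl (a, b)) (Sum.inr (c, d))) =
      if b = c ∧ v = (a, d) then 1 else 0)
    (hm0 : 0 < m) (hm : m ≤ n) (hdim : Q + n ^ 2 < (n - m + 1) ^ 2 + K₀) :
    (m : ℝ) ^ Pool.Agent.H515R2.MMR.omega ≤ 2 * L := by
  classical
  have hcardS : S.card ≤ n ^ 2 := by
    refine (Finset.card_le_univ S).trans ?_
    rw [Fintype.card_prod, Fintype.card_fin, pow_two]
  obtain ⟨T, hT, hlift⟩ := hLIM Ω (Fin n × Fin n) (Fin Q ⊕ {v : Fin n × Fin n // v ∉ S})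
    (Sum.elim (fun t v => mu v t) (fun u v => if v = u then 1 else 0))
  have hcard : Fintype.card (Fin Q ⊕ {v : Fin n × Fin n // v ∉ S}) = Q + (n ^ 2 - S.card) := by
    rw [Fintype.card_sum, Fintype.card_fin, Fintype.card_subtype_compl, Fintype.card_prod,
      Fintype.card_fin, Fintype.card_coe, pow_two]
  rw [hcard] at hT
  -- matrices
  let mt : ((Fin n × Fin n) → Ω) ≃ₗ[Ω] Matrix (Fin n) (Fin n) Ω :=
    { toFun := fun f => Matrix.of fun i j => f (i, j)
      invFun := fun M v => M v.1 v.2
      map_add' := fun _ _ => rfl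
      map_smul' := fun _ _ => rfl
      left_inv := fun _ => rfl
      right_inv := fun _ => rfl }
  have hinf : Infinite Ω := CharZero.infinite Ω
  have hfr : finrank Ω (T.map mt.toLinearMap) = finrank Ω T := LinearEquiv.finrank_map_eq mt T
  obtain ⟨P, R, Λ, hΛ, hΛT⟩ := hBLK Ω n m (T.map mt.toLinearMap) hm (by
    rw [hfr, ← pow_two]
    omega)
  have hsum : ∀ x : (Fin n × Fin n) → Ω, ∀ i₁ l₁,
      ∑ v, (Λ (Matrix.single v.1 v.2 1)) i₁ l₁ * x v = (Λ (mt x)) i₁ l₁ := by
    intro x i₁ l₁
    have h1 : mt x = ∑ v : Fin n × Fin n, x v • Matrix.single v.1 v.2 (1 : Ω) := by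
      rw [Fintype.sum_prod_type]
      have := Matrix.matrix_eq_sum_single (mt x)
      rw [this]
      refine Finset.sum_congr rfl fun i _ => Finset.sum_congr rfl fun j _ => ?_
      rw [Matrix.smul_single, smul_eq_mul, mul_one]
      rfl
    rw [h1, map_sum, Matrix.sum_apply]
    refine Finset.sum_congr rfl fun v _ => ?_
    rw [map_smul, Matrix.smul_apply, smul_eq_mul, mul_comm]
  have hl : ∀ i₁ l₁ : Fin m, ∃ l : Fin n × Fin n → PowerSeries Ω,
      (∀ v, PowerSeries.constantCoeff (l v) = (Λ (Matrix.single v.1 v.2 1)) i₁ l₁) ∧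
      (∀ t, ∑ v, l v * mu v t = 0) ∧ ∀ v ∉ S, l v = 0 := by
    intro i₁ l₁
    obtain ⟨l, hl1, hl2⟩ := hlift (fun v => (Λ (Matrix.single v.1 v.2 1)) i₁ l₁) (by
      intro x hx
      rw [hsum, hΛT (mt x) ⟨x, hx, rfl⟩]
      rfl)
    refine ⟨l, hl1, fun t => hl2 (Sum.inl t), fun v hv => ?_⟩
    have := hl2 (Sum.inr ⟨v, hv⟩)
    simpa using this
  choose l hl1 hl2 hl3 using hl
  -- the decomposition
  let pA : Fin L → Fin m → Fin m → PowerSeries Ω := fun r i j =>
    ∑ a, PowerSeries.C (P a i) * p r (Sum.inl (a, Fin.castLE hm j))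
  let qA : Fin L → Fin m → Fin m → PowerSeries Ω := fun r i j =>
    ∑ a, PowerSeries.C (P a i) * q r (Sum.inl (a, Fin.castLE hm j))
  let pB : Fin L → Fin m → Fin m → PowerSeries Ω := fun r j k =>
    ∑ d, PowerSeries.C (R k d) * p r (Sum.inr (Fin.castLE hm j, d))
  let qB : Fin L → Fin m → Fin m → PowerSeries Ω := fun r j k =>
    ∑ d, PowerSeries.C (R k d) * q r (Sum.inr (Fin.castLE hm j, d))
  let EE : Fin n × Fin n → Fin m → Fin m → Fin m → Fin m → PowerSeries Ω := fun v i j j' k =>
    ∑ a, ∑ d, PowerSeries.C (P a i) * PowerSeries.C (R k d) *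
      E v (Sum.inl (a, Fin.castLE hm j)) (Sum.inr (Fin.castLE hm j', d))
  let HH : Fin Q → Fin m → Fin m → Fin m → Fin m → PowerSeries Ω := fun t i j j' k =>
    ∑ a, ∑ d, PowerSeries.C (P a i) * PowerSeries.C (R k d) *
      H t (Sum.inl (a, Fin.castLE hm j)) (Sum.inr (Fin.castLE hm j', d))
  have h1 : ∀ v i j j' k, PowerSeries.X ^ e * EE v i j j' k =
      ∑ r, lam v r * (pA r i j * qB r j' k + pB r j' k * qA r i j) +
        ∑ t, mu v t * HH t i j j' k := by
    intro v i j j' k
    have e1 : PowerSeries.X ^ e * EE v i j j' k = ∑ a, ∑ d,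
        PowerSeries.C (P a i) * PowerSeries.C (R k d) *
        (PowerSeries.X ^ e * E v (Sum.inl (a, Fin.castLE hm j))
          (Sum.inr (Fin.castLE hm j', d))) := by
      simp only [EE, Finset.mul_sum]
      refine Finset.sum_congr rfl fun a _ => Finset.sum_congr rfl fun d _ => ?_
      ring
    rw [e1]
    have e2 : ∀ a d, PowerSeries.C (P a i) * PowerSeries.C (R k d) *
        (PowerSeries.X ^ e * E v (Sum.inl (a, Fin.castLE hm j)) (Sum.inr (Fin.castLE hm j', d))) =
        ∑ r, lam v r * ((PowerSeries.C (P a i) * p r (Sum.inl (a, Fin.castLE hm j))) *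
            (PowerSeries.C (R k d) * q r (Sum.inr (Fin.castLE hm j', d))) +
          (PowerSeries.C (R k d) * p r (Sum.inr (Fin.castLE hm j', d))) *
            (PowerSeries.C (P a i) * q r (Sum.inl (a, Fin.castLE hm j)))) +
        ∑ t, mu v t * (PowerSeries.C (P a i) * PowerSeries.C (R k d) *
          H t (Sum.inl (a, Fin.castLE hm j)) (Sum.inr (Fin.castLE hm j', d))) := by
      intro a d
      rw [hid, mul_add, Finset.mul_sum, Finset.mul_sum]
      congr 1
      · refine Finset.sum_congr rfl fun r _ => ?_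
        ring
      · refine Finset.sum_congr rfl fun t _ => ?_
        ring
    simp only [e2, Finset.sum_add_distrib]
    congr 1
    · have e3 : ∀ r, lam v r * (pA r i j * qB r j' k + pB r j' k * qA r i j) =
          ∑ a, ∑ d, lam v r * ((PowerSeries.C (P a i) * p r (Sum.inl (a, Fin.castLE hm j))) *
            (PowerSeries.C (R k d) * q r (Sum.inr (Fin.castLE hm j', d))) +
          (PowerSeries.C (R k d) * p r (Sum.inr (Fin.castLE hm j', d))) *
            (PowerSeries.C (P a i) * q r (Sum.inl (a, Fin.castLE hm j)))) := by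
        intro r
        have e4 : pB r j' k * qA r i j = ∑ a, ∑ d,
            (PowerSeries.C (R k d) * p r (Sum.inr (Fin.castLE hm j', d))) *
            (PowerSeries.C (P a i) * q r (Sum.inl (a, Fin.castLE hm j))) := by
          simp only [pB, qA]
          rw [Finset.sum_mul_sum, Finset.sum_comm]
        have e5 : pA r i j * qB r j' k = ∑ a, ∑ d,
            (PowerSeries.C (P a i) * p r (Sum.inl (a, Fin.castLE hm j))) *
            (PowerSeries.C (R k d) * q r (Sum.inr (Fin.castLE hm j', d))) := by
          simp only [pA, qB]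
          rw [Finset.sum_mul_sum]
        rw [e4, e5, ← Finset.sum_add_distrib, Finset.mul_sum]
        refine Finset.sum_congr rfl fun a _ => ?_
        rw [← Finset.sum_add_distrib, Finset.mul_sum]
      simp only [e3]
      exact sum_rot _
    · simp only [HH, Finset.mul_sum]
      exact sum_rot _
  -- apply the functionals
  let U : Fin m → Fin m → Fin m → Fin m → Fin m → Fin m → PowerSeries Ω :=
    fun i j j' k k' l₀ => ∑ v, l l₀ k' v * EE v i j j' k
  have h2 : ∀ i j j' k k' l₀, ∑ r, (pA r i j * qB r j' k + pB r j' k * qA r i j) *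
      (∑ v, l l₀ k' v * lam v r) = PowerSeries.X ^ e * U i j j' k k' l₀ := by
    intro i j j' k k' l₀
    have e1 : PowerSeries.X ^ e * U i j j' k k' l₀ =
        ∑ v, l l₀ k' v * (PowerSeries.X ^ e * EE v i j j' k) := by
      simp only [U, Finset.mul_sum]
      exact Finset.sum_congr rfl fun v _ => by ring
    rw [e1]
    have e2 : ∑ v, l l₀ k' v * ∑ t, mu v t * HH t i j j' k = 0 := by
      simp only [Finset.mul_sum]
      rw [Finset.sum_comm]
      refine Finset.sum_eq_zero fun t _ => ?_
      have : ∑ v, l l₀ k' v * (mu v t * HH t i j j' k) =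
          (∑ v, l l₀ k' v * mu v t) * HH t i j j' k := by
        rw [Finset.sum_mul]
        exact Finset.sum_congr rfl fun v _ => by ring
      rw [this, hl2, zero_mul]
    have e3 : ∀ v, l l₀ k' v * (PowerSeries.X ^ e * EE v i j j' k) =
        ∑ r, (pA r i j * qB r j' k + pB r j' k * qA r i j) * (l l₀ k' v * lam v r) +
          l l₀ k' v * ∑ t, mu v t * HH t i j j' k := by
      intro v
      rw [h1, mul_add, Finset.mul_sum]
      congr 1
      exact Finset.sum_congr rfl fun r _ => by ring
    simp only [e3, Finset.sum_add_distrib]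
    rw [e2, add_zero, Finset.sum_comm]
    exact Finset.sum_congr rfl fun r _ => Finset.mul_sum _ _ _
  -- the constant terms
  have h3 : ∀ i j j' k k' l₀, PowerSeries.constantCoeff (U i j j' k k' l₀) =
      if j = j' ∧ k = k' ∧ l₀ = i then 1 else 0 := by
    intro i j j' k k' l₀
    have e1 : ∀ v, PowerSeries.constantCoeff (l l₀ k' v * EE v i j j' k) =
        (Λ (Matrix.single v.1 v.2 1)) l₀ k' * ((if j = j' then 1 else 0) *
          (P v.1 i * R k v.2)) := by
      intro v
      rw [map_mul, hl1]
      by_cases hv : v ∈ S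
      · congr 1
        simp only [EE, map_sum, map_mul, PowerSeries.constantCoeff_C, hE v hv]
        rw [Finset.sum_eq_single v.1 (fun a _ ha => ?_) (by simp),
          Finset.sum_eq_single v.2 (fun d _ hd => ?_) (by simp)]
        · simp only [Fin.castLE_inj, Prod.mk.eta, and_true]
          ring
        · rw [if_neg, mul_zero]
          rintro ⟨-, h⟩
          exact hd (by rw [h])
        · refine Finset.sum_eq_zero fun d _ => ?_
          rw [if_neg, mul_zero]
          rintro ⟨-, h⟩
          exact ha (by rw [h])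
      · have : (Λ (Matrix.single v.1 v.2 1)) l₀ k' = 0 := by
          rw [← hl1, hl3 _ _ v hv, map_zero]
        rw [this, zero_mul, zero_mul]
    have e2 : PowerSeries.constantCoeff (U i j j' k k' l₀) =
        ∑ v : Fin n × Fin n, (Λ (Matrix.single v.1 v.2 1)) l₀ k' * ((if j = j' then 1 else 0) *
          (P v.1 i * R k v.2)) := by
      simp only [U, map_sum]
      exact Finset.sum_congr rfl fun v _ => e1 v
    rw [e2, hsum (fun v => (if j = j' then 1 else 0) * (P v.1 i * R k v.2)) l₀ k']
    have e3 : mt (fun v => (if j = j' then 1 else 0) * (P v.1 i * R k v.2)) =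
        (if j = j' then (1 : Ω) else 0) • (P * Matrix.single i k (1 : Ω) * R) := by
      refine Matrix.ext fun a d => ?_
      show (if j = j' then (1 : Ω) else 0) * (P a i * R k d) = _
      rw [Matrix.smul_apply, smul_eq_mul]
      congr 1
      rw [Matrix.mul_apply]
      simp only [Matrix.mul_apply, Matrix.single_apply]
      rw [Finset.sum_eq_single k (fun b _ hb => ?_) (by simp)]
      · rw [Finset.sum_eq_single i (fun b _ hb => ?_) (by simp)]
        · simp
        · rw [if_neg, mul_zero]
          rintro ⟨h, -⟩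
          exact hb h.symm
      · rw [Finset.sum_eq_zero, zero_mul]
        intro c _
        rw [if_neg, mul_zero]
        rintro ⟨-, h⟩
        exact hb h.symm
    rw [e3, map_smul, hΛ, Matrix.smul_apply, Matrix.single_apply, smul_eq_mul]
    by_cases hj : j = j'
    · by_cases hk : i = l₀ ∧ k = k'
      · rw [if_pos hj, if_pos hk, if_pos ⟨hj, hk.2, hk.1.symm⟩, one_mul]
      · rw [if_pos hj, if_neg hk, if_neg (fun h => hk ⟨h.2.2.symm, h.2.1⟩), mul_zero]
    · have hn : ¬ (j = j' ∧ k = k' ∧ l₀ = i) := fun h => hj h.1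
      rw [if_neg hj, if_neg hn, zero_mul]
  -- conclusion
  have key := hAD Ω m (L * 2) e
    (fun t i j => if (finProdFinEquiv.symm t).2 = 0 then pA (finProdFinEquiv.symm t).1 i j
      else qA (finProdFinEquiv.symm t).1 i j)
    (fun t j' k => if (finProdFinEquiv.symm t).2 = 0 then qB (finProdFinEquiv.symm t).1 j' k
      else pB (finProdFinEquiv.symm t).1 j' k)
    (fun t k' l₀ => ∑ v, l l₀ k' v * lam v (finProdFinEquiv.symm t).1) hm0 (by
      intro i j j' k k' l₀ d hd
      have e1 : ∑ t : Fin (L * 2),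
          (if (finProdFinEquiv.symm t).2 = 0 then pA (finProdFinEquiv.symm t).1 i j
            else qA (finProdFinEquiv.symm t).1 i j) *
          (if (finProdFinEquiv.symm t).2 = 0 then qB (finProdFinEquiv.symm t).1 j' k
            else pB (finProdFinEquiv.symm t).1 j' k) *
          (∑ v, l l₀ k' v * lam v (finProdFinEquiv.symm t).1) =
          PowerSeries.X ^ e * U i j j' k k' l₀ := by
        rw [← h2, ← Equiv.sum_comp (finProdFinEquiv (m := L) (n := 2)), Fintype.sum_prod_type]
        refine Finset.sum_congr rfl fun r _ => ?_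
        rw [Fin.sum_univ_two]
        simp only [Equiv.symm_apply_apply, if_true, one_ne_zero, if_false]
        ring
      rw [e1, PowerSeries.coeff_X_pow_mul']
      by_cases hde : e ≤ d
      · have : d = e := le_antisymm hd hde
        subst this
        rw [if_pos le_rfl, Nat.sub_self, PowerSeries.coeff_zero_eq_constantCoeff_apply, h3]
        simp
      · rw [if_neg hde, if_neg]
        rintro ⟨h, -⟩
        exact hde h.ge)
  refine key.trans (le_of_eq ?_)
  push_cast
  ring

end

end Pool.Agent.W966.Vf
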