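import Pool.Agent.W966.Vf.StageA
import Pool.Agent.W966.Vf.HT
import Pool.Agent.W362.VF.AV
import Pool.Agent.W411.VF.Min
import Pool.Agent.W411.VF.Fin
import Pool.Agent.W443.VF.Pui
import Pool.Agent.W597.VF.ISO
import Pool.Agent.W239.VF.Ad
import Pool.Agent.W405.VF.Der
import Pool.Agent.W101.VF.Blk
import Pool.Agent.W613.VF.Lim
import Pool.Agent.W230.VF.Ident

/-!
# Systems of equations which define matrix products
-/

set_option autoImplicit false

namespace Pool.Agent.W966.Vf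

open MvPolynomial Module Pool.Agent.W966.Mm

/-- **VF-CURVE**. -/
theorem curve : S_CURVE := by
  intro Ω₁ Ω ρ _ _ _ _ _ _ F γ hF
  obtain ⟨𝔮, h1, h2, h3, h4, h5⟩ :=
    Pool.Agent.W411.VF.min_main ht2 Ω₁ Ω ρ F γ hF
  obtain ⟨D, _, _, _, h, hfin, hinj, hq, hpow⟩ :=
    Pool.Agent.W411.VF.Fin1.fin_main Ω ρ 𝔮 h1 h2 h4 h5
  obtain ⟨e, g, he, hg, hFg⟩ := Pool.Agent.W443.VF.pui Ω ρ D h hfin hinj hpow
  refine ⟨e, g, he, hg, fun a => ?_⟩
  have h6 := hFg (MvPolynomial.map (algebraMap Ω₁ Ω) (F a)) (γ a) (by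
    have h7 := hq _ (h3 a)
    rw [map_sub, sub_eq_zero, aeval_C] at h7
    rw [← h7, MvPolynomial.eval₂_map, MvPolynomial.aeval_def, MvPolynomial.eval₂_map]
    congr 1
    refine RingHom.ext fun c => ?_
    simp only [RingHom.comp_apply, PowerSeries.algebraMap_apply])
  rw [MvPolynomial.eval₂_map] at h6
  exact h6

lemma exists_point {F σ : Type} [Field F] [IsAlgClosed F] [Finite σ]
    (𝔓 : Ideal (MvPolynomial σ F)) (h𝔓 : 𝔓.IsPrime) {p : MvPolynomial σ F} (hp : p ∉ 𝔓) :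
    ∃ w : σ → F, (∀ q ∈ 𝔓, aeval w q = 0) ∧ aeval w p ≠ 0 := by
  by_contra hcon
  push Not at hcon
  apply hp
  have h1 : p ∈ vanishingIdeal F (zeroLocus F 𝔓) := fun w hw => hcon w hw
  rwa [MvPolynomial.vanishingIdeal_zeroLocus_eq_radical, h𝔓.radical] at h1

section

variable {K F : Type} [Field K] [CharZero K] [Field F] [IsAlgClosed F] [Algebra K F]
  {n m Q N' L K₀ M : ℕ} {J₂ J₃ : Type} [Fintype J₂] [Fintype J₃]

/-- The point with the coordinates `x`, `a`, `s`. -/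
def pnt {ι κ σ F : Type} (x : ι → F) (a : κ → F) (s : σ → F) : ι ⊕ κ ⊕ σ → F :=
  Sum.elim x (Sum.elim a s)

lemma aeval_polF {ι κ σ : Type} [Fintype ι] [Fintype κ] [Fintype σ] (x : ι → F) (a : κ → F)
    (s : σ → F) (f : AF K (ι ⊕ κ ⊕ σ)) : aeval s (polF x a f) = f.val (pnt x a s) := by
  have := AF.map_val (K := K) (aeval s : MvPolynomial σ F →ₐ[F] F).toRingHom (by
    intro c
    show aeval s (C (algebraMap K F c)) = _
    rw [aeval_C]
    rfl) f (Sum.elim (fun i => C (x i)) (Sum.elim (fun t => C (a t)) X))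
  refine this.trans ?_
  congr 1
  funext i
  rcases i with i | t | i
  · show aeval s (C (x i)) = _
    rw [aeval_C]; rfl
  · show aeval s (C (a t)) = _
    rw [aeval_C]; rfl
  · show aeval s (X i) = _
    rw [aeval_X]; rfl

/-- The system of a path. -/
structure Sat {K F N : Type} [Field K] [Field F] [Algebra K F] [Fintype N] {L : ℕ} {J₂ J₃ : Type}
    (α β δ : Fin L → AF K N) (lin : J₂ → AF K N) (ne : J₃ → AF K N) (w : N → F) : Prop where
  mul : ∀ j, (α j).val w * (β j).val w = (δ j).val w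
  lin : ∀ j, (lin j).val w = 0
  ne : ∀ j, (ne j).val w ≠ 0

/-- **The main theorem over a large field.** -/
theorem main_F (α β δ : Fin L → AF K (Ent n ⊕ Fin Q ⊕ Fin N'))
    (lin : J₂ → AF K (Ent n ⊕ Fin Q ⊕ Fin N')) (ne : J₃ → AF K (Ent n ⊕ Fin Q ⊕ Fin N'))
    (o : Fin n × Fin n → AF K (Ent n ⊕ Fin Q ⊕ Fin N')) (x : Ent n → F)
    (hx : AlgebraicIndependent K x) (a : Fin Q → F) (s₀ : Fin N' → F)
    (h0 : Sat α β δ lin ne (pnt x a s₀)) (𝒞 : Fin M → Fin n × Fin n → F)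
    (sound : ∀ s, Sat α β δ lin ne (pnt x a s) → ∃ i, ∃ S : Finset (Fin n × Fin n),
      K₀ ≤ S.card ∧ ∀ v ∈ S, (o v).val (pnt x a s) = 𝒞 i v)
    (ident : ∀ i (S : Finset (Fin n × Fin n)), K₀ ≤ S.card →
      (∀ v ∈ S, (o v).val (pnt x a s₀) = 𝒞 i v) →
      ∀ v ∈ S, 𝒞 i v = ∑ k, x (Sum.inl (v.1, k)) * x (Sum.inr (k, v.2)))
    (hm0 : 0 < m) (hm : m ≤ n) (hdim : Q + n ^ 2 < (n - m + 1) ^ 2 + K₀) :
    (m : ℝ) ^ Pool.Agent.H515R2.MMR.omega ≤ 2 * L := by
  classical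
  let αJ : Fin L ⊕ J₂ → AF K (Ent n ⊕ Fin Q ⊕ Fin N') := Sum.elim α (fun _ => 0)
  let βJ : Fin L ⊕ J₂ → AF K (Ent n ⊕ Fin Q ⊕ Fin N') := Sum.elim β (fun _ => 0)
  let δJ : Fin L ⊕ J₂ → AF K (Ent n ⊕ Fin Q ⊕ Fin N') := Sum.elim δ lin
  let Eq : Fin L ⊕ J₂ → MvPolynomial (Fin N') F := fun j =>
    polF x a (αJ j) * polF x a (βJ j) - polF x a (δJ j)
  have hzero : ∀ w : Ent n ⊕ Fin Q ⊕ Fin N' → F,
      (0 : AF K (Ent n ⊕ Fin Q ⊕ Fin N')).val w = 0 := by
    intro w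
    simp [AF.val]
  have hEq : ∀ s j, aeval s (Eq j) =
      (αJ j).val (pnt x a s) * (βJ j).val (pnt x a s) - (δJ j).val (pnt x a s) := by
    intro s j
    simp only [Eq, map_sub, map_mul, aeval_polF]
  have hsat : ∀ s, (∀ j, aeval s (Eq j) = 0) → (∀ j, (ne j).val (pnt x a s) ≠ 0) →
      Sat α β δ lin ne (pnt x a s) := by
    intro s h1 h2
    refine ⟨fun j => ?_, fun j => ?_, h2⟩
    · have := h1 (Sum.inl j)
      rw [hEq, sub_eq_zero] at this
      exact this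
    · have := h1 (Sum.inr j)
      rw [hEq, sub_eq_zero] at this
      rw [show δJ (Sum.inr j) = lin j from rfl] at this
      rw [← this, show αJ (Sum.inr j) = 0 from rfl, hzero, zero_mul]
  have hsat' : ∀ s, Sat α β δ lin ne (pnt x a s) → ∀ j, aeval s (Eq j) = 0 := by
    intro s h j
    rw [hEq]
    rcases j with j | j
    · exact sub_eq_zero.mpr (h.mul j)
    · rw [show αJ (Sum.inr j) = 0 from rfl, hzero, zero_mul, show δJ (Sum.inr j) = lin j from rfl,
        h.lin, sub_zero]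
  -- the component
  let 𝔐 : Ideal (MvPolynomial (Fin N') F) :=
    RingHom.ker (aeval s₀ : MvPolynomial (Fin N') F →ₐ[F] F).toRingHom
  have h𝔐 : 𝔐.IsPrime := RingHom.ker_isPrime _
  have hmem𝔐 : ∀ p, p ∈ 𝔐 ↔ aeval s₀ p = 0 := fun p => RingHom.mem_ker
  have hle : Ideal.span (Set.range Eq) ≤ 𝔐 := by
    rw [Ideal.span_le]
    rintro _ ⟨j, rfl⟩
    exact (hmem𝔐 _).mpr (hsat' s₀ h0 j)
  obtain ⟨𝔓, h𝔓, h𝔓𝔐⟩ := Ideal.exists_minimalPrimes_le hle
  have hprime : 𝔓.IsPrime := h𝔓.1.1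
  have hspan : Ideal.span (Set.range Eq) ≤ 𝔓 := h𝔓.1.2
  -- the outputs on the component
  obtain ⟨i, S, hS, hiS⟩ : ∃ i, ∃ S : Finset (Fin n × Fin n), K₀ ≤ S.card ∧
      ∀ v ∈ S, polF x a (o v) - C (𝒞 i v) ∈ 𝔓 := by
    by_contra hcon
    push Not at hcon
    -- a bad product
    let bad : Fin M × Finset (Fin n × Fin n) → MvPolynomial (Fin N') F := fun t =>
      if h : K₀ ≤ t.2.card then
        polF x a (o (Classical.choose (hcon t.1 t.2 h))) -
          C (𝒞 t.1 (Classical.choose (hcon t.1 t.2 h)))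
      else 1
    have hbad : ∀ t, bad t ∉ 𝔓 := by
      intro t
      by_cases h : K₀ ≤ t.2.card
      · simp only [bad, dif_pos h]
        exact (Classical.choose_spec (hcon t.1 t.2 h)).2
      · simp only [bad, dif_neg h]
        exact fun h1 => hprime.ne_top ((Ideal.eq_top_iff_one _).mpr h1)
    have hne : ∀ j, polF x a (ne j) ∉ 𝔓 := by
      intro j hj
      have h1 := (hmem𝔐 _).mp (h𝔓𝔐 hj)
      rw [aeval_polF] at h1
      exact h0.ne j h1
    have hprod : (∏ t, bad t) * ∏ j, polF x a (ne j) ∉ 𝔓 := by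
      intro hh
      rcases hprime.mem_or_mem hh with h1 | h1
      · obtain ⟨t, -, ht⟩ := (hprime.prod_mem_iff).mp h1
        exact hbad t ht
      · obtain ⟨j, -, hj⟩ := (hprime.prod_mem_iff).mp h1
        exact hne j hj
    obtain ⟨s, hs1, hs2⟩ := exists_point 𝔓 hprime hprod
    rw [map_mul, map_prod, map_prod] at hs2
    have h2 := Finset.prod_ne_zero_iff.mp (left_ne_zero_of_mul hs2)
    have h3 := Finset.prod_ne_zero_iff.mp (right_ne_zero_of_mul hs2)
    have h4 : Sat α β δ lin ne (pnt x a s) := by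
      refine hsat s (fun j => hs1 _ (hspan (Ideal.subset_span ⟨j, rfl⟩))) fun j => ?_
      have := h3 j (Finset.mem_univ _)
      rwa [aeval_polF] at this
    obtain ⟨i, S, hS, hiS⟩ := sound s h4
    have h5 := h2 (i, S) (Finset.mem_univ _)
    simp only [bad, dif_pos hS] at h5
    obtain ⟨hv, -⟩ := Classical.choose_spec (hcon i S hS)
    apply h5
    rw [map_sub, aeval_polF, aeval_C]
    have := hiS _ hv
    rw [this]
    exact sub_self _
  have hval : ∀ v ∈ S, (o v).val (pnt x a s₀) = 𝒞 i v := by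
    intro v hv
    have h1 := (hmem𝔐 _).mp (h𝔓𝔐 (hiS v hv))
    rw [map_sub, aeval_polF, aeval_C, sub_eq_zero] at h1
    exact h1
  have hident := ident i S hS hval
  -- isolation
  have hindep : AlgebraicIndependent F (fun i : Fin 0 =>
      Ideal.Quotient.mk 𝔓 (X ((fun i : Fin 0 => i.elim0) i : Fin N'))) := by
    have : Nontrivial (MvPolynomial (Fin N') F ⧸ 𝔓) := Ideal.Quotient.nontrivial_iff.mpr hprime.ne_top
    exact algebraicIndependent_empty_type_iff.mpr (algebraMap F _).injective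
  obtain ⟨T, Ω₁, _, _, w₀, -, hw₀, hT, hiso⟩ := Pool.Agent.W597.VF.iso F (Fin N') (Fin 0)
    (Fin L ⊕ J₂) (fun i => i.elim0) Eq 𝔓 h𝔓 hindep
  refine stageA (Pool.Agent.W362.VF.av ht1) curve
    (Pool.Agent.W230.VF.ident Pool.Agent.W405.VF.der_main) Pool.Agent.W613.VF.lim Pool.Agent.W101.VF.blk
    Pool.Agent.W239.VF.main x a T w₀ αJ βJ δJ (fun _ => rfl) hx hT ?_ o S hS ?_ hm0 hm hdim
  · exact hiso
  · intro v hv
    have h1 := (hw₀ _).mpr (hiS v hv)
    rw [map_sub, aeval_C, sub_eq_zero] at h1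
    rw [h1, hident v hv]

end

end Pool.Agent.W966.Vf
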