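import Pool.Agent.W966.Vf.Gen

/-!
# Verification procedures
-/

set_option autoImplicit false

namespace Pool.Agent.W966.Vf

open MvPolynomial Module Filter Pool.Agent.W966.Mm

variable {K : Type} [Field K] {n : ℕ}

/-- The entries of a matrix, as registers. -/
def vecM (C : Matrix (Fin n) (Fin n) K) : ℕ → K := fun s =>
  if h : s < n * n then C (finProdFinEquiv.symm ⟨s, h⟩).1 (finProdFinEquiv.symm ⟨s, h⟩).2 else 0

/-- The verification procedure `t` accepts the triple `A, B, C` with cost `L`: started with the
`n * n` entries of `C` in its registers it can reach an output node with at most `L`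
multiplications and divisions, for some outcomes of its random choices and some answers to its
queries. (Its output is ignored. It can reject by a division by zero.) -/
def Accepts (t : QTree K n) (A B C : Matrix (Fin n) (Fin n) K) (L : ℕ) : Prop :=
  ∃ G, t.CanOutput A B (fun _ => True) (n * n) (vecM C) L G

/-- Replace the output. -/
def setOut (M : Fin n → Fin n → Lin K n) : QTree K n → QTree K n
  | .output _ => .output M
  | .mul f h next => .mul f h (setOut M next)
  | .div f h next => .div f h (setOut M next)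
  | .query next => .query (setOut M next)
  | .test f yes no => .test f (setOut M yes) (setOut M no)
  | .choose r next => .choose r fun i => setOut M (next i)

/-- The matrix in the first registers. -/
def firstM (K : Type) [Field K] (n : ℕ) : Fin n → Fin n → Lin K n := fun i j =>
  reg K n (finProdFinEquiv (i, j) : Fin (n * n))

lemma setOut_can (A B C : Matrix (Fin n) (Fin n) K)
    (E : Matrix (Fin n) (Fin n) K → Prop) (t : QTree K n) :
    ∀ (l : ℕ) (g : ℕ → K) (L Q : ℕ), n * n ≤ l →
      (∀ i j, g (finProdFinEquiv (i, j) : Fin (n * n)) = C i j) →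
      ((setOut (firstM K n) t).CanOutput A B E l g L Q ↔
        t.CanOutput A B (fun _ => True) l g L Q ∧ E C) := by
  have hup : ∀ (l : ℕ) (g : ℕ → K) (v : K), n * n ≤ l →
      (∀ i j, g (finProdFinEquiv (i, j) : Fin (n * n)) = C i j) →
      ∀ i j, Function.update g l v (finProdFinEquiv (i, j) : Fin (n * n)) = C i j := by
    intro l g v hl hg i j
    rw [Function.update_of_ne, hg]
    have := (finProdFinEquiv (i, j) : Fin (n * n)).2
    omega
  induction t with
  | output M =>
    intro l g L Q hl hg
    have e : (Matrix.of fun i j => (firstM K n i j).val A B l g) = C := by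
      refine Matrix.ext fun i j => ?_
      show (firstM K n i j).val A B l g = _
      rw [firstM, reg_val (lt_of_lt_of_le (finProdFinEquiv (i, j)).2 hl)]
      exact hg i j
    show E _ ↔ _
    rw [e]
    exact ⟨fun h => ⟨trivial, h⟩, fun h => h.2⟩
  | mul f h next ih =>
    intro l g L Q hl hg
    simp only [setOut, QTree.CanOutput]
    rw [ih _ _ _ _ (by omega) (hup l g _ hl hg)]
    tauto
  | div f h next ih =>
    intro l g L Q hl hg
    simp only [setOut, QTree.CanOutput]
    rw [ih _ _ _ _ (by omega) (hup l g _ hl hg)]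
    tauto
  | query next ih =>
    intro l g L Q hl hg
    simp only [setOut, QTree.CanOutput]
    constructor
    · rintro ⟨h1, v, h2⟩
      rw [ih _ _ _ _ (by omega) (hup l g _ hl hg)] at h2
      exact ⟨⟨h1, v, h2.1⟩, h2.2⟩
    · rintro ⟨⟨h1, v, h2⟩, h3⟩
      refine ⟨h1, v, ?_⟩
      rw [ih _ _ _ _ (by omega) (hup l g _ hl hg)]
      exact ⟨h2, h3⟩
  | test f yes no ihy ihn =>
    intro l g L Q hl hg
    simp only [setOut, QTree.CanOutput]
    rw [ihy _ _ _ _ hl hg, ihn _ _ _ _ hl hg]
    tauto
  | choose r next ih =>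
    intro l g L Q hl hg
    simp only [setOut, QTree.CanOutput]
    constructor
    · rintro ⟨i, h⟩
      rw [ih i _ _ _ _ hl hg] at h
      exact ⟨⟨i, h.1⟩, h.2⟩
    · rintro ⟨⟨i, h⟩, h3⟩
      refine ⟨i, ?_⟩
      rw [ih i _ _ _ _ hl hg]
      exact ⟨h, h3⟩

lemma askN_iff (A B : Matrix (Fin n) (Fin n) K) (E : Matrix (Fin n) (Fin n) K → Prop)
    (t : QTree K n) (L : ℕ) (N : ℕ) : ∀ (l : ℕ) (g : ℕ → K),
      (∃ G, (askN N t).CanOutput A B E l g L G) ↔
        ∃ g' : ℕ → K, (∀ s, s < l ∨ l + N ≤ s → g' s = g s) ∧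
          ∃ G, t.CanOutput A B E (l + N) g' L G := by
  induction N with
  | zero =>
    intro l g
    constructor
    · rintro ⟨G, h⟩
      exact ⟨g, fun _ _ => rfl, G, h⟩
    · rintro ⟨g', h1, G, h2⟩
      have : g' = g := funext fun s => h1 s (by omega)
      rw [this] at h2
      exact ⟨G, h2⟩
  | succ N ih =>
    intro l g
    constructor
    · rintro ⟨G, h1, v, h2⟩
      obtain ⟨g', h3, G', h4⟩ := (ih (l + 1) (Function.update g l v)).mp ⟨G - 1, h2⟩
      refine ⟨g', fun s hs => ?_, G', ?_⟩
      · rw [h3 s (by omega), Function.update_of_ne (by omega)]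
      · rw [show l + (N + 1) = l + 1 + N by omega]
        exact h4
    · rintro ⟨g', h1, G, h2⟩
      obtain ⟨G', h3⟩ := (ih (l + 1) (Function.update g l (g' l))).mpr ⟨g', fun s hs => by
        by_cases hsl : s = l
        · subst hsl
          rw [Function.update_self]
        · rw [Function.update_of_ne hsl]
          exact h1 s (by omega), G, by
            rw [show l + 1 + N = l + (N + 1) by omega]
            exact h2⟩
      exact ⟨G' + 1, by omega, g' l, h3⟩

lemma can_congr (A B : Matrix (Fin n) (Fin n) K) (E : Matrix (Fin n) (Fin n) K → Prop)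
    (t : QTree K n) : ∀ (l : ℕ) (g g' : ℕ → K) (L Q : ℕ), (∀ s < l, g s = g' s) →
      t.CanOutput A B E l g L Q → t.CanOutput A B E l g' L Q := by
  have hup : ∀ (l : ℕ) (g g' : ℕ → K) (v : K), (∀ s < l, g s = g' s) →
      ∀ s < l + 1, Function.update g l v s = Function.update g' l v s := by
    intro l g g' v h s hs
    by_cases hsl : s = l
    · subst hsl
      rw [Function.update_self, Function.update_self]
    · rw [Function.update_of_ne hsl, Function.update_of_ne hsl]
      exact h s (by omega)
  induction t with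
  | output M =>
    intro l g g' L Q h hh
    have e : (Matrix.of fun i j => (M i j).val A B l g) =
        Matrix.of fun i j => (M i j).val A B l g' :=
      Matrix.ext fun i j => (M i j).val_congr _ _ h
    simp only [QTree.CanOutput] at hh ⊢
    rwa [← e]
  | mul f k next ih =>
    intro l g g' L Q h hh
    simp only [QTree.CanOutput] at hh ⊢
    rw [← f.val_congr A B h, ← k.val_congr A B h]
    exact ⟨hh.1, ih _ _ _ _ _ (hup l g g' _ h) hh.2⟩
  | div f k next ih =>
    intro l g g' L Q h hh
    simp only [QTree.CanOutput] at hh ⊢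
    rw [← f.val_congr A B h, ← k.val_congr A B h]
    exact ⟨hh.1, hh.2.1, ih _ _ _ _ _ (hup l g g' _ h) hh.2.2⟩
  | query next ih =>
    intro l g g' L Q h hh
    obtain ⟨h1, v, h2⟩ := hh
    exact ⟨h1, v, ih _ _ _ _ _ (hup l g g' _ h) h2⟩
  | test f yes no ihy ihn =>
    intro l g g' L Q h hh
    simp only [QTree.CanOutput] at hh ⊢
    rw [← f.val_congr A B h]
    exact hh.imp (fun h1 => ⟨h1.1, ihy _ _ _ _ _ h h1.2⟩) fun h1 => ⟨h1.1, ihn _ _ _ _ _ h h1.2⟩
  | choose r next ih =>
    intro l g g' L Q h hh
    obtain ⟨i, hi⟩ := hh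
    exact ⟨i, ih i _ _ _ _ _ h hi⟩

/-- **From verification to computation.** -/
theorem outputs_verif (t : QTree K n) (A B : Matrix (Fin n) (Fin n) K) (a : ℕ → K) (L : ℕ) :
    Outputs (askN (n * n) (setOut (firstM K n) t)) A B 0 a L = {C | Accepts t A B C L} := by
  ext C
  show (∃ G, _) ↔ ∃ G, _
  rw [askN_iff]
  simp only [Nat.zero_add]
  have hvec : ∀ (C : Matrix (Fin n) (Fin n) K) i j,
      vecM C (finProdFinEquiv (i, j) : Fin (n * n)) = C i j := by
    intro C i j
    have h := (finProdFinEquiv (i, j) : Fin (n * n)).2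
    simp only [vecM, dif_pos h, Fin.eta, Equiv.symm_apply_apply]
  constructor
  · rintro ⟨g', -, G, h⟩
    let C' : Matrix (Fin n) (Fin n) K :=
      Matrix.of fun i j => g' (finProdFinEquiv (i, j) : Fin (n * n))
    rw [setOut_can A B C' _ t _ _ _ _ le_rfl (fun i j => rfl)] at h
    obtain ⟨h1, h2⟩ := h
    refine ⟨G, ?_⟩
    have h3 : C' = C := h2
    refine can_congr A B _ t _ g' _ L G (fun s hs => ?_) h1
    rw [← h3]
    simp only [vecM, dif_pos hs]
    show _ = g' _
    congr 1
    have : finProdFinEquiv ((finProdFinEquiv.symm (⟨s, hs⟩ : Fin (n * n))).1,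
        (finProdFinEquiv.symm (⟨s, hs⟩ : Fin (n * n))).2) = (⟨s, hs⟩ : Fin (n * n)) := by
      rw [Prod.mk.eta, Equiv.apply_symm_apply]
    exact (congrArg Fin.val this).symm
  · rintro ⟨G, h⟩
    refine ⟨fun s => if s < n * n then vecM C s else a s, fun s hs => ?_, G, ?_⟩
    · have : ¬ s < n * n := by omega
      simp only [if_neg this]
    · rw [setOut_can A B C _ t _ _ _ _ le_rfl (fun i j => ?_)]
      · refine ⟨can_congr A B _ t _ _ _ L G (fun s hs => ?_) h, rfl⟩
        simp only [if_pos hs]
      · have h := (finProdFinEquiv (i, j) : Fin (n * n)).2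
        simp only [if_pos h]
        exact hvec C i j

end Pool.Agent.W966.Vf
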